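import Pool.Agent.H82.ND.Grp

/-!
# One algorithm for all inputs, which fails only on finitely many bases of every group
-/

set_option autoImplicit false

namespace Pool.Agent.H82.ND

open Finset Pool.Agent.H49.FD Pool.Agent.H54.Free

section prim

variable {α : Type*} [Primcodable α]

lemma prim_bex {f : α → ℕ} (hf : Primrec f) {R : ℕ → α → Prop}
    (hR : PrimrecPred fun y : ℕ × α => R y.1 y.2) : PrimrecPred fun x => ∃ k < f x, R k x := by
  have hR' : PrimrecRel R := hR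
  refine ((PrimrecRel.exists_mem_list hR').comp (Primrec.list_range.comp hf) Primrec.id).of_eq
    fun x => ?_
  simp only [List.mem_range, id]

lemma prim_ball {f : α → ℕ} (hf : Primrec f) {R : ℕ → α → Prop}
    (hR : PrimrecPred fun y : ℕ × α => R y.1 y.2) : PrimrecPred fun x => ∀ k < f x, R k x := by
  have hR' : PrimrecRel R := hR
  refine ((PrimrecRel.forall_mem_list hR').comp (Primrec.list_range.comp hf) Primrec.id).of_eq
    fun x => ?_
  simp only [List.mem_range, id]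

end prim

/-- the valuation, by search -/
def valF (ℓ n : ℕ) : ℕ := Nat.findGreatest (fun k => ℓ ^ k ∣ n) n

lemma prim_valF : Primrec₂ valF := by
  classical
  have hR : PrimrecRel fun (x : ℕ × ℕ) (k : ℕ) => x.1 ^ k ∣ x.2 :=
    prim_dvd (prim_pow.comp (Primrec.fst.comp Primrec.fst) Primrec.snd)
      (Primrec.snd.comp Primrec.fst)
  exact (Primrec.nat_findGreatest (f := fun x : ℕ × ℕ => x.2)
    (p := fun (x : ℕ × ℕ) (k : ℕ) => x.1 ^ k ∣ x.2) Primrec.snd hR).of_eq fun x => by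
      unfold valF
      congr

lemma valF_eq {ℓ : ℕ} (hp : ℓ.Prime) {n : ℕ} (hn : 0 < n) : valF ℓ n = padicValNat ℓ n := by
  have : Fact ℓ.Prime := ⟨hp⟩
  unfold valF
  rw [Nat.findGreatest_eq_iff]
  refine ⟨?_, fun _ => (padicValNat_dvd_iff_le hn.ne').2 le_rfl, fun k hk _ h => ?_⟩
  · have h1 : ℓ ^ padicValNat ℓ n ≤ n := Nat.le_of_dvd hn ((padicValNat_dvd_iff_le hn.ne').2 le_rfl)
    exact (Nat.lt_pow_self hp.one_lt).le.trans h1
  · exact absurd ((padicValNat_dvd_iff_le hn.ne').1 h) (not_le.2 hk)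

lemma prim_prime : PrimrecPred Nat.Prime := by
  have h : PrimrecPred fun n : ℕ => 2 ≤ n ∧ ∀ k < n, k ∣ n → k = 1 := by
    refine (Primrec.nat_le.comp (Primrec.const 2) Primrec.id).and
      (prim_ball (f := fun n : ℕ => n) (R := fun k n => k ∣ n → k = 1) Primrec.id ?_)
    refine ((prim_dvd (Primrec.fst (α := ℕ) (β := ℕ)) Primrec.snd).not.or
      (Primrec.eq.comp Primrec.fst (Primrec.const 1))).of_eq fun y => ?_
    tauto
  exact h.of_eq fun n => Nat.prime_def_lt.symm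

/-- size of the diagonal entries -/
def sz (p : Inp) : ℕ := p.1.1 + p.1.2.2 + (p.2.1 + p.2.2.2) + 1

lemma prim_sz : Primrec sz :=
  Primrec.nat_add.comp (Primrec.nat_add.comp (Primrec.nat_add.comp p11 p13)
    (Primrec.nat_add.comp p21 p23)) (Primrec.const 1)

/-- the matrices commute, or a ratio is `1` -/
def Test0 (p : Inp) : Prop :=
  p.1.1 * p.2.2.1 + p.1.2.1 * p.2.2.2 = p.2.1 * p.1.2.1 + p.2.2.1 * p.1.2.2 ∨
    (p.1.1 = p.1.2.2 ∨ p.2.1 = p.2.2.2)

/-- a common prime -/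
def Test1 (p : Inp) : Prop := ∃ ℓ < sz p, ℓ.Prime ∧
  ComT (valF ℓ p.1.1) (valF ℓ p.1.2.2) (valF ℓ p.2.1) (valF ℓ p.2.2.2)

/-- `x₁ ^ S * x₂ ^ K` -/
def XX (S K : ℕ) (p : Inp) : ℕ := p.1.1 ^ S * p.2.1 ^ K

/-- `z₁ ^ S * z₂ ^ K` -/
def ZZ (S K : ℕ) (p : Inp) : ℕ := p.1.2.2 ^ S * p.2.2.2 ^ K

/-- `(S + K) ^ (S + K)` -/
def EE (S K : ℕ) : ℕ := (S + K) ^ (S + K)

/-- `S ^ S * K ^ K` -/
def FF (S K : ℕ) : ℕ := S ^ S * K ^ K

/-- the condition of the pigeonhole test -/
def Tst (g K S : ℕ) (p : Inp) : Prop := (0 < S ∧ 0 < K) ∧ ((g ∣ XX S K p ∧ g ∣ ZZ S K p) ∧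
  (XX S K p * FF S K < g * EE S K ∧ ZZ S K p * FF S K < g * EE S K))

/-- the pigeonhole test -/
def Test2 (p : Inp) : Prop := ∃ S < sz p, ∃ K < sz p, ∃ g < XX S K p + 1, Tst g K S p

lemma prim_Test0 : PrimrecPred Test0 := by
  have m : ∀ {f g : Inp → ℕ}, Primrec f → Primrec g → Primrec fun x => f x * g x :=
    fun hf hg => Primrec.nat_mul.comp hf hg
  have s : ∀ {f g : Inp → ℕ}, Primrec f → Primrec g → Primrec fun x => f x + g x :=
    fun hf hg => Primrec.nat_add.comp hf hg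
  exact (Primrec.eq.comp (s (m p11 p22) (m p12 p23)) (s (m p21 p12) (m p22 p13))).or
    ((Primrec.eq.comp p11 p13).or (Primrec.eq.comp p21 p23))

lemma prim_Test1 : PrimrecPred Test1 := by
  have v : ∀ {f : Inp → ℕ}, Primrec f → Primrec fun y : ℕ × Inp => valF y.1 (f y.2) :=
    fun hf => prim_valF.comp Primrec.fst (hf.comp Primrec.snd)
  have h1 : PrimrecPred fun y : ℕ × Inp => Nat.Prime y.1 :=
    PrimrecPred.comp prim_prime Primrec.fst
  have v1 := v p11
  have v2 := v p13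
  have v3 := v p21
  have v4 := v p23
  have h2 := prim_ComT v1 v2 v3 v4
  have h3 := h1.and h2
  exact prim_bex (f := sz) (R := fun ℓ p => ℓ.Prime ∧
    ComT (valF ℓ p.1.1) (valF ℓ p.1.2.2) (valF ℓ p.2.1) (valF ℓ p.2.2.2)) prim_sz h3

lemma prim_XX {α : Type*} [Primcodable α] {f g : α → ℕ} {h : α → Inp} (hf : Primrec f)
    (hg : Primrec g) (hh : Primrec h) : Primrec fun x => XX (f x) (g x) (h x) :=
  Primrec.nat_mul.comp (prim_pow.comp (p11.comp hh) hf) (prim_pow.comp (p21.comp hh) hg)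

lemma prim_ZZ {α : Type*} [Primcodable α] {f g : α → ℕ} {h : α → Inp} (hf : Primrec f)
    (hg : Primrec g) (hh : Primrec h) : Primrec fun x => ZZ (f x) (g x) (h x) :=
  Primrec.nat_mul.comp (prim_pow.comp (p13.comp hh) hf) (prim_pow.comp (p23.comp hh) hg)

lemma prim_EE {α : Type*} [Primcodable α] {f g : α → ℕ} (hf : Primrec f)
    (hg : Primrec g) : Primrec fun x => EE (f x) (g x) :=
  prim_pow.comp (Primrec.nat_add.comp hf hg) (Primrec.nat_add.comp hf hg)

lemma prim_FF {α : Type*} [Primcodable α] {f g : α → ℕ} (hf : Primrec f)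
    (hg : Primrec g) : Primrec fun x => FF (f x) (g x) :=
  Primrec.nat_mul.comp (prim_pow.comp hf hf) (prim_pow.comp hg hg)

lemma prim_Tst {α : Type*} [Primcodable α] {f k s : α → ℕ} {h : α → Inp} (hf : Primrec f)
    (hk : Primrec k) (hs : Primrec s) (hh : Primrec h) :
    PrimrecPred fun x => Tst (f x) (k x) (s x) (h x) := by
  have m : ∀ {f g : α → ℕ}, Primrec f → Primrec g → Primrec fun x => f x * g x :=
    fun hf hg => Primrec.nat_mul.comp hf hg
  have hX := prim_XX hs hk hh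
  have hZ := prim_ZZ hs hk hh
  have hE := prim_EE hs hk
  have hF := prim_FF hs hk
  exact ((prim_pos hs).and (prim_pos hk)).and (((prim_dvd hf hX).and (prim_dvd hf hZ)).and
    ((Primrec.nat_lt.comp (m hX hF) (m hf hE)).and (Primrec.nat_lt.comp (m hZ hF) (m hf hE))))

lemma prim_Test2 : PrimrecPred Test2 := by
  have h1 : PrimrecPred fun z : ℕ × (ℕ × (ℕ × Inp)) => Tst z.1 z.2.1 z.2.2.1 z.2.2.2 :=
    prim_Tst Primrec.fst (Primrec.fst.comp Primrec.snd)
      (Primrec.fst.comp (Primrec.snd.comp Primrec.snd))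
      (Primrec.snd.comp (Primrec.snd.comp Primrec.snd))
  have h2 : PrimrecPred fun y : ℕ × (ℕ × Inp) =>
      ∃ g < XX y.2.1 y.1 y.2.2 + 1, Tst g y.1 y.2.1 y.2.2 :=
    prim_bex (f := fun y : ℕ × (ℕ × Inp) => XX y.2.1 y.1 y.2.2 + 1)
      (R := fun g y => Tst g y.1 y.2.1 y.2.2)
      (Primrec.nat_add.comp (prim_XX (Primrec.fst.comp Primrec.snd) Primrec.fst
        (Primrec.snd.comp Primrec.snd)) (Primrec.const 1)) h1
  have h3 : PrimrecPred fun y : ℕ × Inp =>
      ∃ K < sz y.2, ∃ g < XX y.1 K y.2 + 1, Tst g K y.1 y.2 :=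
    prim_bex (f := fun y : ℕ × Inp => sz y.2)
      (R := fun K y => ∃ g < XX y.1 K y.2 + 1, Tst g K y.1 y.2) (prim_sz.comp Primrec.snd) h2
  exact prim_bex (f := sz) (R := fun S p => ∃ K < sz p, ∃ g < XX S K p + 1, Tst g K S p) prim_sz h3

open Classical in
/-- the algorithm: `some true` = free, `some false` = not free, `none` = no answer -/
noncomputable def alg (p : Inp) : Option Bool :=
  if Test0 p then some false else if Test1 p then some true else
    if Test2 p then some false else none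

lemma prim_alg : Primrec alg := by
  classical
  exact Primrec.ite prim_Test0 (Primrec.const _) (Primrec.ite prim_Test1 (Primrec.const _)
    (Primrec.ite prim_Test2 (Primrec.const _) (Primrec.const _)))

/-! ### the algorithm does not err -/

lemma not_free_of_Test0 {p : Inp} (hp : PosInp p) (h : Test0 p) : ¬ FreeInp p := by
  rcases h with h | h | h
  · exact not_free_of_comm' h
  · have h1 : rat1 p = 1 := by
      rw [rat1, h]
      exact div_self (by exact_mod_cast hp.2.1.ne')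
    exact never_one_left (rat2 p) _ _ _ _ _ _ hp.1 hp.2.1 hp.2.2.1 hp.2.2.2 h1 rfl
  · have h1 : rat2 p = 1 := by
      rw [rat2, h]
      exact div_self (by exact_mod_cast hp.2.2.2.ne')
    exact never_one_right (rat1 p) _ _ _ _ _ _ hp.1 hp.2.1 hp.2.2.1 hp.2.2.2 rfl h1

lemma free_of_Test1 {p : Inp} (hp : PosInp p) (h0 : ¬ Test0 p) (h : Test1 p) : FreeInp p := by
  obtain ⟨ℓ, -, hℓ, h1⟩ := h
  rw [valF_eq hℓ hp.1, valF_eq hℓ hp.2.1, valF_eq hℓ hp.2.2.1, valF_eq hℓ hp.2.2.2, comT_iff,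
    ← val_rat1 hp hℓ, ← val_rat2 hp hℓ] at h1
  refine always_of_common hℓ (rat1_pos hp) (rat2_pos hp) h1 _ _ _ _ _ _ hp.1 hp.2.1 hp.2.2.1
    hp.2.2.2 rfl rfl fun h2 => h0 ?_
  exact Or.inl (comm_iff.1 h2)

lemma not_free_of_Test2 {p : Inp} (hp : PosInp p) (h : Test2 p) : ¬ FreeInp p := by
  obtain ⟨S, -, K, -, g, -, ⟨hS, hK⟩, ⟨⟨X', hX⟩, ⟨Z', hZ⟩⟩, h1, h2⟩ := h
  unfold XX at hX h1
  unfold ZZ at hZ h2
  unfold FF EE at h1 h2
  have hX0 : 0 < p.1.1 ^ S * p.2.1 ^ K := Nat.mul_pos (pow_pos hp.1 _) (pow_pos hp.2.2.1 _)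
  have hZ0 : 0 < p.1.2.2 ^ S * p.2.2.2 ^ K := Nat.mul_pos (pow_pos hp.2.1 _) (pow_pos hp.2.2.2 _)
  have hg : 0 < g := by
    rcases Nat.eq_zero_or_pos g with h3 | h3
    · rw [h3, zero_mul] at hX
      omega
    · exact h3
  have hX' : 0 < X' := by
    rcases Nat.eq_zero_or_pos X' with h3 | h3
    · rw [h3, mul_zero] at hX
      omega
    · exact h3
  have hZ' : 0 < Z' := by
    rcases Nat.eq_zero_or_pos Z' with h3 | h3
    · rw [h3, mul_zero] at hZ
      omega
    · exact h3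
  rw [hX, mul_assoc] at h1
  rw [hZ, mul_assoc] at h2
  have k1 := lt_of_mul_lt_mul_left h1 (Nat.zero_le _)
  have k2 := lt_of_mul_lt_mul_left h2 (Nat.zero_le _)
  have hz1 : (p.1.2.2 : ℚ) ≠ 0 := by exact_mod_cast hp.2.1.ne'
  have hz2 : (p.2.2.2 : ℚ) ≠ 0 := by exact_mod_cast hp.2.2.2.ne'
  have hgq : (g : ℚ) ≠ 0 := by exact_mod_cast hg.ne'
  have hab : rat1 p ^ S * rat2 p ^ K = (X' : ℚ) / Z' := by
    have e1 : (p.1.1 : ℚ) ^ S * (p.2.1 : ℚ) ^ K = g * X' := by exact_mod_cast hX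
    have e2 : (p.1.2.2 : ℚ) ^ S * (p.2.2.2 : ℚ) ^ K = g * Z' := by exact_mod_cast hZ
    rw [rat1, rat2, div_pow, div_pow, div_mul_div_comm, e1, e2, mul_div_mul_left _ _ hgq]
  exact never_of_entropy hS hK hX' hZ' hab k1 k2 _ _ _ _ _ _ hp.1 hp.2.1 hp.2.2.1 hp.2.2.2 rfl rfl

theorem alg_sound {p : Inp} (hp : PosInp p) :
    (alg p = some true → FreeInp p) ∧ (alg p = some false → ¬ FreeInp p) := by
  unfold alg
  by_cases h0 : Test0 p
  · rw [if_pos h0]
    exact ⟨fun h => by simp at h, fun _ => not_free_of_Test0 hp h0⟩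
  · rw [if_neg h0]
    by_cases h1 : Test1 p
    · rw [if_pos h1]
      exact ⟨fun _ => free_of_Test1 hp h0 h1, fun h => by simp at h⟩
    · rw [if_neg h1]
      by_cases h2 : Test2 p
      · rw [if_pos h2]
        exact ⟨fun h => by simp at h, fun _ => not_free_of_Test2 hp h2⟩
      · rw [if_neg h2]
        exact ⟨fun h => by simp at h, fun h => by simp at h⟩

/-! ### the algorithm answers if the criterion applies -/

lemma val_le {ℓ n : ℕ} (hp : ℓ.Prime) (hn : 0 < n) : padicValNat ℓ n ≤ n := by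
  have : Fact ℓ.Prime := ⟨hp⟩
  have h1 : ℓ ^ padicValNat ℓ n ≤ n := Nat.le_of_dvd hn ((padicValNat_dvd_iff_le hn.ne').2 le_rfl)
  exact (Nat.lt_pow_self hp.one_lt).le.trans h1

lemma mx_le1 {T : Finset ℕ} (hT : ∀ ℓ ∈ T, ℓ.Prime) {p : Inp} (hp : PosInp p) :
    mx T (rat1 p) ≤ p.1.1 + p.1.2.2 := by
  refine Finset.sup_le fun ℓ hℓ => ?_
  rw [val_rat1 hp (hT ℓ hℓ)]
  have h1 := val_le (hT ℓ hℓ) hp.1
  have h2 := val_le (hT ℓ hℓ) hp.2.1
  omega

lemma mx_le2 {T : Finset ℕ} (hT : ∀ ℓ ∈ T, ℓ.Prime) {p : Inp} (hp : PosInp p) :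
    mx T (rat2 p) ≤ p.2.1 + p.2.2.2 := by
  refine Finset.sup_le fun ℓ hℓ => ?_
  rw [val_rat2 hp (hT ℓ hℓ)]
  have h1 := val_le (hT ℓ hℓ) hp.2.2.1
  have h2 := val_le (hT ℓ hℓ) hp.2.2.2
  omega

theorem alg_complete {T : Finset ℕ} (hT : ∀ ℓ ∈ T, ℓ.Prime) {p : Inp} (hp : PosInp p)
    (hTa : TUnit T (rat1 p)) (hTb : TUnit T (rat2 p)) {D : ℕ} (hD : Minors T (rat1 p) (rat2 p) D)
    (h : (∏ ℓ ∈ T, ℓ) ^ D * (mx T (rat2 p) ^ mx T (rat2 p) * mx T (rat1 p) ^ mx T (rat1 p)) <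
      (mx T (rat2 p) + mx T (rat1 p)) ^ (mx T (rat2 p) + mx T (rat1 p))) : alg p ≠ none := by
  unfold alg
  by_cases h0 : Test0 p
  · rw [if_pos h0]
    simp
  rw [if_neg h0]
  by_cases h1 : Test1 p
  · rw [if_pos h1]
    simp
  rw [if_neg h1]
  have h2 : Test2 p := by
    have hno : ∀ ℓ ∈ T, padicValRat ℓ (rat1 p) * padicValRat ℓ (rat2 p) ≤ 0 := by
      intro ℓ hℓ
      by_contra hc
      push Not at hc
      have hprime := hT ℓ hℓ
      have : Fact ℓ.Prime := ⟨hprime⟩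
      refine h1 ⟨ℓ, ?_, hprime, ?_⟩
      · by_contra hlt
        have e1 : padicValNat ℓ p.1.1 = 0 := by
          refine padicValNat.eq_zero_of_not_dvd fun hd => ?_
          have := Nat.le_of_dvd hp.1 hd
          unfold sz at hlt
          omega
        have e2 : padicValNat ℓ p.1.2.2 = 0 := by
          refine padicValNat.eq_zero_of_not_dvd fun hd => ?_
          have := Nat.le_of_dvd hp.2.1 hd
          unfold sz at hlt
          omega
        rw [val_rat1 hp hprime, e1, e2] at hc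
        simp at hc
      · rw [valF_eq hprime hp.1, valF_eq hprime hp.2.1, valF_eq hprime hp.2.2.1,
          valF_eq hprime hp.2.2.2, comT_iff, ← val_rat1 hp hprime, ← val_rat2 hp hprime]
        exact hc
    obtain ⟨hm0, hM0, n1, n2⟩ := height_of_minors hT (rat1_pos hp) (rat2_pos hp) hTa hTb hD h hno
    set S := mx T (rat2 p) with hS
    set K := mx T (rat1 p) with hK
    set X := p.1.1 ^ S * p.2.1 ^ K with hX
    set Z := p.1.2.2 ^ S * p.2.2.2 ^ K with hZ
    have hX0 : 0 < X := Nat.mul_pos (pow_pos hp.1 _) (pow_pos hp.2.2.1 _)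
    have hZ0 : 0 < Z := Nat.mul_pos (pow_pos hp.2.1 _) (pow_pos hp.2.2.2 _)
    set c : ℚ := rat1 p ^ S * rat2 p ^ K with hc
    have hcpos : 0 < c := mul_pos (pow_pos (rat1_pos hp) _) (pow_pos (rat2_pos hp) _)
    have hcXZ : c = (X : ℚ) / Z := by
      rw [hc, rat1, rat2, div_pow, div_pow, div_mul_div_comm, hX, hZ]
      push_cast
      rfl
    have hnum : ((c.num.natAbs : ℕ) : ℚ) / c.den = c := by
      rw [Nat.cast_natAbs, abs_of_pos (Rat.num_pos.2 hcpos)]
      exact Rat.num_div_den _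
    have hcross : c.num.natAbs * Z = X * c.den := by
      have h3 : ((c.num.natAbs : ℕ) : ℚ) / c.den = (X : ℚ) / Z := hnum.trans hcXZ
      rw [div_eq_div_iff (by exact_mod_cast c.den_pos.ne') (by exact_mod_cast hZ0.ne')] at h3
      exact_mod_cast h3
    have hn0 : 0 < c.num.natAbs := Int.natAbs_pos.2 (Rat.num_pos.2 hcpos).ne'
    have hdvd : c.num.natAbs ∣ X := by
      refine Nat.Coprime.dvd_of_dvd_mul_right c.reduced ?_
      exact ⟨Z, hcross.symm⟩
    obtain ⟨g, hg⟩ := hdvd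
    have hg' : Z = c.den * g := by
      have h3 : c.num.natAbs * Z = c.num.natAbs * (c.den * g) := by
        rw [hcross, hg]
        ring
      exact Nat.eq_of_mul_eq_mul_left hn0 h3
    have hg0 : 0 < g := by
      rcases Nat.eq_zero_or_pos g with h3 | h3
      · rw [h3, mul_zero] at hg
        omega
      · exact h3
    have b1 := mx_le1 hT hp
    have b2 := mx_le2 hT hp
    have hX' : XX S K p = X := rfl
    have hZ' : ZZ S K p = Z := rfl
    refine ⟨S, by unfold sz; omega, K, by unfold sz; omega, g, ?_, ⟨hm0, hM0⟩,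
      ⟨⟨c.num.natAbs, by rw [hX', hg, mul_comm]⟩, ⟨c.den, by rw [hZ', hg', mul_comm]⟩⟩, ?_, ?_⟩
    · rw [hX']
      have : g ≤ X := by
        rw [hg]
        exact Nat.le_mul_of_pos_left _ hn0
      omega
    · rw [hX', hg]
      unfold FF EE
      calc c.num.natAbs * g * (S ^ S * K ^ K) = g * (c.num.natAbs * (S ^ S * K ^ K)) := by ring
        _ < g * (S + K) ^ (S + K) :=
          Nat.mul_lt_mul_of_pos_left ((Nat.mul_le_mul_right _ n1).trans_lt h) hg0
    · rw [hZ', hg']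
      unfold FF EE
      calc c.den * g * (S ^ S * K ^ K) = g * (c.den * (S ^ S * K ^ K)) := by ring
        _ < g * (S + K) ^ (S + K) :=
          Nat.mul_lt_mul_of_pos_left ((Nat.mul_le_mul_right _ n2).trans_lt h) hg0
  rw [if_pos h2]
  simp

lemma Test0_of_one {p : Inp} (hp : PosInp p) (h : rat1 p = 1 ∨ rat2 p = 1) : Test0 p := by
  have hz1 : (p.1.2.2 : ℚ) ≠ 0 := by exact_mod_cast hp.2.1.ne'
  have hz2 : (p.2.2.2 : ℚ) ≠ 0 := by exact_mod_cast hp.2.2.2.ne'
  rcases h with h | h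
  · rw [rat1, div_eq_one_iff_eq hz1] at h
    exact Or.inr (Or.inl (by exact_mod_cast h))
  · rw [rat2, div_eq_one_iff_eq hz2] at h
    exact Or.inr (Or.inr (by exact_mod_cast h))

/-- **The algorithm fails only on finitely many pairs of ratios of every group.** -/
theorem alg_finite (G : Set ℚ) :
    {x : ℚ × ℚ | ∃ p : Inp, PosInp p ∧ gen (rat1 p) (rat2 p) = G ∧ alg p = none ∧
      x = (rat1 p, rat2 p)}.Finite := by
  by_cases hG : ∃ p₀ : Inp, PosInp p₀ ∧ gen (rat1 p₀) (rat2 p₀) = G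
  · obtain ⟨p₀, hp₀, rfl⟩ := hG
    have ha₀ := rat1_pos hp₀
    have hb₀ := rat2_pos hp₀
    set T : Finset ℕ := prs (rat1 p₀) ∪ prs (rat2 p₀) with hTdef
    have hT : ∀ ℓ ∈ T, ℓ.Prime := by
      intro ℓ hℓ
      rw [hTdef, Finset.mem_union] at hℓ
      rcases hℓ with h | h
      · exact prs_prime ℓ h
      · exact prs_prime ℓ h
    have hTa : TUnit T (rat1 p₀) := tunit_of_subset ha₀ Finset.subset_union_left
    have hTb : TUnit T (rat2 p₀) := tunit_of_subset hb₀ Finset.subset_union_right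
    obtain ⟨D, hD⟩ := exists_minors T (rat1 p₀) (rat2 p₀)
    refine (finite_not_lt hT D).subset ?_
    rintro _ ⟨p, hp, hg, hn, rfl⟩
    have t1 := tunit_of_gen ha₀ hb₀ hTa hTb (hg ▸ left_mem_gen _ _)
    have t2 := tunit_of_gen ha₀ hb₀ hTa hTb (hg ▸ right_mem_gen _ _)
    have t3 := minors_of_gen hT (rat1_pos hp) (rat2_pos hp) ha₀ hb₀ hg hD
    have n0 : ¬ Test0 p := by
      intro h0
      unfold alg at hn
      rw [if_pos h0] at hn
      simp at hn
    exact ⟨rat1_pos hp, rat2_pos hp, fun h => n0 (Test0_of_one hp (Or.inl h)),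
      fun h => n0 (Test0_of_one hp (Or.inr h)), t1, t2,
      fun h => alg_complete hT hp t1 t2 t3 h hn⟩
  · refine Set.finite_empty.subset ?_
    rintro _ ⟨p, hp, hg, _, _⟩
    exact absurd ⟨p, hp, hg⟩ hG

end Pool.Agent.H82.ND
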