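import Pool.Agent.H82.ND.Tab5

/-!
# Ratios composed of 2, 3 and 5: the finitely many exceptional pairs
-/

set_option autoImplicit false

namespace Pool.Agent.H82.ND

open Finset Pool.Agent.H49.FD Pool.Agent.H54.Free

/-- `n` or `-n` -/
def sgn (s : Bool) (n : ℕ) : ℤ := if s then n else -n

/-- the minor `x * y' - x' * y` is at most one in absolute value -/
def mOK (x y x' y' : ℕ) : Bool := decide (x * y' ≤ x' * y + 1) && decide (x' * y ≤ x * y' + 1)

/-- the criterion does not apply -/
def eOK (m M : ℕ) : Bool := decide ((m + M) ^ (m + M) ≤ 30 * (m ^ m * M ^ M))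

/-- neither of the ratios is one, critical region, not on the same side without a separating
prime -/
def scope5 (i j k i' j' k' : ℤ) : Bool :=
  decide (up5 i j k ≠ up5 (-i) (-j) (-k)) && decide (up5 i' j' k' ≠ up5 (-i') (-j') (-k')) &&
    decide (up5 (-i) (-j) (-k) * up5 (-i') (-j') (-k') <
      up5 i j k * up5 (-i') (-j') (-k') + up5 i' j' k' * up5 (-i) (-j) (-k)) &&
    decide (up5 i j k * up5 i' j' k' <
      up5 (-i) (-j) (-k) * up5 i' j' k' + up5 (-i') (-j') (-k') * up5 i j k) &&
    !(decide (0 ≤ i * i') && decide (0 ≤ j * j') && decide (0 ≤ k * k') &&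
      ((decide (up5 i j k < up5 (-i) (-j) (-k)) && decide (up5 i' j' k' < up5 (-i') (-j') (-k'))) ||
        (decide (up5 (-i) (-j) (-k) < up5 i j k) && decide (up5 (-i') (-j') (-k') < up5 i' j' k'))))

/-- the check for one pair -/
def one5 (a1 a2 a3 b1 b2 b3 : ℕ) : Bool :=
  [true, false].all fun s1 => [true, false].all fun s2 => [true, false].all fun s3 =>
    !(scope5 (sgn s1 a1) (sgn s2 a2) (sgn s3 a3) (sgn (!s1) b1) (sgn (!s2) b2) (sgn (!s3) b3)) ||
      chk5 (sgn s1 a1) (sgn s2 a2) (sgn s3 a3) (sgn (!s1) b1) (sgn (!s2) b2) (sgn (!s3) b3)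

lemma box5_check : ((List.range 3).all fun b1 => (List.range 3).all fun b2 =>
    (List.range 3).all fun b3 => (List.range 11).all fun a1 => (List.range 11).all fun a2 =>
      !(mOK a1 b1 a2 b2) || ((List.range 11).all fun a3 =>
        !(mOK a1 b1 a3 b3 && mOK a2 b2 a3 b3 && eOK (max b1 (max b2 b3)) (max a1 (max a2 a3))) ||
          one5 a1 a2 a3 b1 b2 b3)) = true := by
  decide +kernel

end Pool.Agent.H82.ND
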