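import Pool.Agent.H82.ND.Tab

/-!
# Ratios composed of 2 and 3: complete answer for minors up to 3
-/

set_option autoImplicit false

namespace Pool.Agent.H82.ND

open Finset Pool.Agent.H49.FD Pool.Agent.H54.Free

/-- no common prime, critical region, minor between 1 and 3 -/
def scope (i j k l : ℤ) : Bool :=
  decide (i * k ≤ 0) && decide (j * l ≤ 0) && decide (1 ≤ (i * l - j * k).natAbs) &&
    decide ((i * l - j * k).natAbs ≤ 3) &&
    decide (up (-i) (-j) * up (-k) (-l) < up i j * up (-k) (-l) + up k l * up (-i) (-j)) &&
    decide (up i j * up k l < up (-i) (-j) * up k l + up (-k) (-l) * up i j)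

/-- the certificates -/
def chk (i j k l : ℤ) : Bool :=
  pigTest i j k l k.natAbs i.natAbs || pigTest i j k l l.natAbs j.natAbs ||
    pigTest i j k l 1 3 || pigTest i j k l 3 1 || pigTest i j k l 3 2 || pigTest i j k l 6 7 ||
    pigTest i j k l 2 19 || pigTest i j k l 19 2 ||
    decide ((i, j, k, l) ∈ table) || decide ((k, l, i, j) ∈ table) ||
    decide ((-i, -j, -k, -l) ∈ table) || decide ((-k, -l, -i, -j) ∈ table)

lemma chk_sound {i j k l : ℤ} (h : chk i j k l = true) : NeverFree (r23 i j) (r23 k l) := by
  unfold chk at h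
  simp only [Bool.or_eq_true, decide_eq_true_eq] at h
  rcases h with (((((((((((h | h) | h) | h) | h) | h) | h) | h) | h) | h) | h) | h)
  · exact pig_sound h
  · exact pig_sound h
  · exact pig_sound h
  · exact pig_sound h
  · exact pig_sound h
  · exact pig_sound h
  · exact pig_sound h
  · exact pig_sound h
  · exact table_never _ h
  · exact never_swap (table_never _ h)
  · have h1 := never_inv (table_never _ h)
    simp only [r23_neg, neg_neg] at h1
    exact h1
  · have h1 := never_swap (never_inv (table_never _ h))
    simp only [r23_neg, neg_neg] at h1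
    exact h1

/-- the integer `n - c` for `n : ℕ` -/
def bx (c n : ℕ) : ℤ := (n : ℤ) - c

lemma box_check : (List.range 7).all (fun j => (List.range 7).all (fun l =>
    (List.range 19).all (fun i => (List.range 19).all (fun k =>
      !(scope (bx 9 i) (bx 3 j) (bx 9 k) (bx 3 l)) || chk (bx 9 i) (bx 3 j) (bx 9 k) (bx 3 l))))) =
    true := by
  decide +kernel

lemma box {i j k l : ℤ} (hi : i.natAbs ≤ 9) (hj : j.natAbs ≤ 3) (hk : k.natAbs ≤ 9)
    (hl : l.natAbs ≤ 3) (hs : scope i j k l = true) : NeverFree (r23 i j) (r23 k l) := by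
  have h := box_check
  simp only [List.all_eq_true, List.mem_range] at h
  have h1 := h (j + 3).toNat (by omega) (l + 3).toNat (by omega) (i + 9).toNat (by omega)
    (k + 9).toNat (by omega)
  have ei : bx 9 (i + 9).toNat = i := by unfold bx; omega
  have ej : bx 3 (j + 3).toNat = j := by unfold bx; omega
  have ek : bx 9 (k + 9).toNat = k := by unfold bx; omega
  have el : bx 3 (l + 3).toNat = l := by unfold bx; omega
  rw [ei, ej, ek, el, hs] at h1
  simp only [Bool.not_true, Bool.false_or] at h1
  exact chk_sound h1

end Pool.Agent.H82.ND
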