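import Pool.Agent.H82.ND.Dich

/-!
# For a finite set of primes and bounded minors freeness is decidable
-/

set_option autoImplicit false

namespace Pool.Agent.H82.ND

open Finset Pool.Agent.H49.FD Pool.Agent.H54.Free

/-- The inputs: two triples `(x, y, z)` of natural numbers, standing for the matrices
`(x y; 0 z)`. -/
abbrev Inp := (ℕ × ℕ × ℕ) × (ℕ × ℕ × ℕ)

/-- the two matrices of the input generate a free semigroup -/
def FreeInp (p : Inp) : Prop := FreePair p.1.1 p.1.2.1 p.1.2.2 p.2.1 p.2.2.1 p.2.2.2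

/-- the diagonal entries are positive -/
def PosInp (p : Inp) : Prop := 0 < p.1.1 ∧ 0 < p.1.2.2 ∧ 0 < p.2.1 ∧ 0 < p.2.2.2

/-- the ratio of the diagonal entries of the first matrix -/
def rat1 (p : Inp) : ℚ := (p.1.1 : ℚ) / p.1.2.2

/-- the ratio of the diagonal entries of the second matrix -/
def rat2 (p : Inp) : ℚ := (p.2.1 : ℚ) / p.2.2.2

/-- positive diagonal entries, ratios composed of the primes of `T`, minors bounded by `D` -/
def InClass (T : Finset ℕ) (D : ℕ) (p : Inp) : Prop :=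
  PosInp p ∧ TUnit T (rat1 p) ∧ TUnit T (rat2 p) ∧ Minors T (rat1 p) (rat2 p) D

/-! ### primitive recursive functions -/

lemma prim_pow : Primrec₂ ((· ^ ·) : ℕ → ℕ → ℕ) := Primrec₂.unpaired'.1 Nat.Primrec.pow

lemma prim_dvd {α : Type*} [Primcodable α] {f g : α → ℕ} (hf : Primrec f) (hg : Primrec g) :
    PrimrecPred fun x => f x ∣ g x :=
  (Primrec.eq.comp (Primrec.nat_mod.comp hg hf) (Primrec.const 0)).of_eq fun _ =>
    Nat.dvd_iff_mod_eq_zero.symm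

lemma prim_val {ℓ : ℕ} (hp : ℓ.Prime) : Primrec fun n : ℕ => padicValNat ℓ n := by
  classical
  have : Fact ℓ.Prime := ⟨hp⟩
  have hR : PrimrecRel fun n k : ℕ => ℓ ^ k ∣ n :=
    prim_dvd (prim_pow.comp (Primrec.const ℓ) Primrec.snd) Primrec.fst
  refine (Primrec.nat_findGreatest (f := fun n : ℕ => n) (p := fun n k => ℓ ^ k ∣ n) Primrec.id
    hR).of_eq fun n => ?_
  rcases Nat.eq_zero_or_pos n with rfl | hn
  · simp
  · rw [Nat.findGreatest_eq_iff]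
    refine ⟨?_, fun _ => (padicValNat_dvd_iff_le hn.ne').2 le_rfl, fun k hk _ h => ?_⟩
    · have h1 : ℓ ^ padicValNat ℓ n ≤ n := Nat.le_of_dvd hn ((padicValNat_dvd_iff_le hn.ne').2 le_rfl)
      exact (Nat.lt_pow_self hp.one_lt).le.trans h1
    · exact absurd ((padicValNat_dvd_iff_le hn.ne').1 h) (not_le.2 hk)

lemma prim_exists {α ι : Type*} [Primcodable α] (T : Finset ι) (R : ι → α → Prop)
    (h : ∀ i ∈ T, PrimrecPred (R i)) : PrimrecPred fun x => ∃ i ∈ T, R i x := by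
  classical
  induction T using Finset.induction_on with
  | empty =>
    refine (Primrec.eq.comp (Primrec.const (α := α) 0) (Primrec.const 1)).of_eq fun x => ?_
    simp
  | insert i T hi ih =>
    refine ((h i (Finset.mem_insert_self i T)).or
      (ih fun j hj => h j (Finset.mem_insert_of_mem hj))).of_eq fun x => ?_
    simp

lemma prim_forall {α ι : Type*} [Primcodable α] (T : Finset ι) (R : ι → α → Prop)
    (h : ∀ i ∈ T, PrimrecPred (R i)) : PrimrecPred fun x => ∀ i ∈ T, R i x :=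
  (prim_exists T (fun i x => ¬ R i x) fun i hi => (h i hi).not).not.of_eq fun x => by
    push Not
    rfl

lemma p11 : Primrec fun p : Inp => p.1.1 := Primrec.fst.comp Primrec.fst
lemma p12 : Primrec fun p : Inp => p.1.2.1 := Primrec.fst.comp (Primrec.snd.comp Primrec.fst)
lemma p13 : Primrec fun p : Inp => p.1.2.2 := Primrec.snd.comp (Primrec.snd.comp Primrec.fst)
lemma p21 : Primrec fun p : Inp => p.2.1 := Primrec.fst.comp Primrec.snd
lemma p22 : Primrec fun p : Inp => p.2.2.1 := Primrec.fst.comp (Primrec.snd.comp Primrec.snd)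
lemma p23 : Primrec fun p : Inp => p.2.2.2 := Primrec.snd.comp (Primrec.snd.comp Primrec.snd)

lemma prim_pos {α : Type*} [Primcodable α] {f : α → ℕ} (hf : Primrec f) :
    PrimrecPred fun x => 0 < f x := Primrec.nat_lt.comp (Primrec.const 0) hf

lemma prim_PosInp : PrimrecPred PosInp :=
  (prim_pos p11).and ((prim_pos p13).and ((prim_pos p21).and (prim_pos p23)))

/-! ### the tests -/

lemma tunit_iff {T : Finset ℕ} (hT : ∀ ℓ ∈ T, ℓ.Prime) {x z : ℕ} (hx : 0 < x) (hz : 0 < z) :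
    TUnit T ((x : ℚ) / z) ↔ z ∣ x * (∏ ℓ ∈ T, ℓ) ^ z ∧ x ∣ z * (∏ ℓ ∈ T, ℓ) ^ x := by
  have hP : 0 < ∏ ℓ ∈ T, ℓ := Finset.prod_pos fun ℓ hℓ => (hT ℓ hℓ).pos
  have hval : ∀ ℓ : ℕ, ℓ.Prime → padicValRat ℓ ((x : ℚ) / z) = padicValNat ℓ x - padicValNat ℓ z := by
    intro ℓ hp
    have : Fact ℓ.Prime := ⟨hp⟩
    rw [padicValRat.div (by exact_mod_cast hx.ne') (by exact_mod_cast hz.ne'), padicValRat.of_nat,
      padicValRat.of_nat]
  have key : ∀ {u v : ℕ}, 0 < u → 0 < v →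
      (∀ ℓ : ℕ, ℓ.Prime → ℓ ∉ T → padicValNat ℓ v ≤ padicValNat ℓ u) →
      v ∣ u * (∏ ℓ ∈ T, ℓ) ^ v := by
    intro u v hu hv h
    have hne : u * (∏ ℓ ∈ T, ℓ) ^ v ≠ 0 := (Nat.mul_pos hu (pow_pos hP _)).ne'
    rw [← Nat.factorization_le_iff_dvd hv.ne' hne, Finsupp.le_def]
    intro ℓ
    by_cases hp : ℓ.Prime
    · have : Fact ℓ.Prime := ⟨hp⟩
      rw [Nat.factorization_def _ hp, Nat.factorization_def _ hp,
        padicValNat.mul hu.ne' (pow_pos hP _).ne', padicValNat.pow]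
      by_cases hℓ : ℓ ∈ T
      · have h1 : 1 ≤ padicValNat ℓ (∏ ℓ ∈ T, ℓ) :=
          one_le_padicValNat_of_dvd hP.ne' (Finset.dvd_prod_of_mem _ hℓ)
        have h2 : padicValNat ℓ v ≤ v := by
          have h3 : ℓ ^ padicValNat ℓ v ≤ v :=
            Nat.le_of_dvd hv ((padicValNat_dvd_iff_le hv.ne').2 le_rfl)
          exact (Nat.lt_pow_self hp.one_lt).le.trans h3
        have h4 : v * 1 ≤ v * padicValNat ℓ (∏ ℓ ∈ T, ℓ) := Nat.mul_le_mul_left v h1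
        omega
      · exact (h ℓ hp hℓ).trans (Nat.le_add_right _ _)
    · rw [Nat.factorization_eq_zero_of_not_prime _ hp]
      exact Nat.zero_le _
  have key2 : ∀ {u v : ℕ}, 0 < u → 0 < v → v ∣ u * (∏ ℓ ∈ T, ℓ) ^ v → ∀ ℓ : ℕ, ℓ.Prime → ℓ ∉ T →
      padicValNat ℓ v ≤ padicValNat ℓ u := by
    intro u v hu hv h ℓ hp hℓ
    have : Fact ℓ.Prime := ⟨hp⟩
    have hne : u * (∏ ℓ ∈ T, ℓ) ^ v ≠ 0 := (Nat.mul_pos hu (pow_pos hP _)).ne'
    have h1 : padicValNat ℓ v ≤ padicValNat ℓ (u * (∏ ℓ ∈ T, ℓ) ^ v) :=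
      (padicValNat_dvd_iff_le hne).1 (((padicValNat_dvd_iff_le hv.ne').2 le_rfl).trans h)
    rw [padicValNat.mul hu.ne' (pow_pos hP _).ne', padicValNat.pow] at h1
    have h2 : padicValNat ℓ (∏ ℓ ∈ T, ℓ) = 0 := by
      refine padicValNat.eq_zero_of_not_dvd fun hd => ?_
      obtain ⟨q, hq, hdq⟩ := (hp.prime.dvd_finsetProd_iff _).1 hd
      rw [(Nat.prime_dvd_prime_iff_eq hp (hT q hq)).1 hdq] at hℓ
      exact hℓ hq
    rw [h2, mul_zero, add_zero] at h1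
    exact h1
  constructor
  · intro h
    have h1 : ∀ ℓ : ℕ, ℓ.Prime → ℓ ∉ T → padicValNat ℓ x = padicValNat ℓ z := by
      intro ℓ hp hℓ
      have h2 := h ℓ hp hℓ
      rw [hval ℓ hp] at h2
      omega
    exact ⟨key hx hz fun ℓ hp hℓ => (h1 ℓ hp hℓ).ge, key hz hx fun ℓ hp hℓ => (h1 ℓ hp hℓ).le⟩
  · rintro ⟨h1, h2⟩ ℓ hp hℓ
    have h3 := key2 hx hz h1 ℓ hp hℓ
    have h4 := key2 hz hx h2 ℓ hp hℓ
    rw [hval ℓ hp]
    omega

/-- the minor test in natural numbers -/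
def MinT (D : ℕ) (α β γ δ α' β' γ' δ' : ℕ) : Prop :=
  α * γ' + β * δ' + (α' * δ + β' * γ) ≤ D + (α * δ' + β * γ' + (α' * γ + β' * δ)) ∧
    α * δ' + β * γ' + (α' * γ + β' * δ) ≤ D + (α * γ' + β * δ' + (α' * δ + β' * γ))

lemma minT_iff (D α β γ δ α' β' γ' δ' : ℕ) : MinT D α β γ δ α' β' γ' δ' ↔
    |((α : ℤ) - β) * ((γ' : ℤ) - δ') - ((α' : ℤ) - β') * ((γ : ℤ) - δ)| ≤ D := by
  unfold MinT
  rw [abs_le]
  constructor
  · rintro ⟨h1, h2⟩
    zify at h1 h2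
    constructor <;> nlinarith
  · rintro ⟨h1, h2⟩
    zify
    constructor <;> nlinarith

/-- the test for a common prime in natural numbers -/
def ComT (α β γ δ : ℕ) : Prop := α * δ + β * γ < α * γ + β * δ

lemma comT_iff (α β γ δ : ℕ) : ComT α β γ δ ↔ 0 < ((α : ℤ) - β) * ((γ : ℤ) - δ) := by
  unfold ComT
  constructor
  · intro h
    zify at h
    nlinarith
  · intro h
    zify
    nlinarith

section

variable {α : Type*} [Primcodable α]

lemma prim_MinT (D : ℕ) {f1 f2 f3 f4 f5 f6 f7 f8 : α → ℕ} (h1 : Primrec f1) (h2 : Primrec f2)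
    (h3 : Primrec f3) (h4 : Primrec f4) (h5 : Primrec f5) (h6 : Primrec f6) (h7 : Primrec f7)
    (h8 : Primrec f8) :
    PrimrecPred fun x => MinT D (f1 x) (f2 x) (f3 x) (f4 x) (f5 x) (f6 x) (f7 x) (f8 x) := by
  have m : ∀ {f g : α → ℕ}, Primrec f → Primrec g → Primrec fun x => f x * g x :=
    fun hf hg => Primrec.nat_mul.comp hf hg
  have s : ∀ {f g : α → ℕ}, Primrec f → Primrec g → Primrec fun x => f x + g x :=
    fun hf hg => Primrec.nat_add.comp hf hg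
  have hD : Primrec fun _ : α => D := Primrec.const D
  exact (Primrec.nat_le.comp (s (s (m h1 h7) (m h2 h8)) (s (m h5 h4) (m h6 h3)))
    (s hD (s (s (m h1 h8) (m h2 h7)) (s (m h5 h3) (m h6 h4))))).and
    (Primrec.nat_le.comp (s (s (m h1 h8) (m h2 h7)) (s (m h5 h3) (m h6 h4)))
    (s hD (s (s (m h1 h7) (m h2 h8)) (s (m h5 h4) (m h6 h3)))))

lemma prim_ComT {f1 f2 f3 f4 : α → ℕ} (h1 : Primrec f1) (h2 : Primrec f2)
    (h3 : Primrec f3) (h4 : Primrec f4) :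
    PrimrecPred fun x => ComT (f1 x) (f2 x) (f3 x) (f4 x) := by
  have m : ∀ {f g : α → ℕ}, Primrec f → Primrec g → Primrec fun x => f x * g x :=
    fun hf hg => Primrec.nat_mul.comp hf hg
  have s : ∀ {f g : α → ℕ}, Primrec f → Primrec g → Primrec fun x => f x + g x :=
    fun hf hg => Primrec.nat_add.comp hf hg
  exact Primrec.nat_lt.comp (s (m h1 h4) (m h2 h3)) (s (m h1 h3) (m h2 h4))

end

lemma val_rat1 {p : Inp} (hp : PosInp p) {ℓ : ℕ} (hℓ : ℓ.Prime) :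
    padicValRat ℓ (rat1 p) = padicValNat ℓ p.1.1 - padicValNat ℓ p.1.2.2 := by
  have : Fact ℓ.Prime := ⟨hℓ⟩
  rw [rat1, padicValRat.div (by exact_mod_cast hp.1.ne') (by exact_mod_cast hp.2.1.ne'),
    padicValRat.of_nat, padicValRat.of_nat]

lemma val_rat2 {p : Inp} (hp : PosInp p) {ℓ : ℕ} (hℓ : ℓ.Prime) :
    padicValRat ℓ (rat2 p) = padicValNat ℓ p.2.1 - padicValNat ℓ p.2.2.2 := by
  have : Fact ℓ.Prime := ⟨hℓ⟩
  rw [rat2, padicValRat.div (by exact_mod_cast hp.2.2.1.ne') (by exact_mod_cast hp.2.2.2.ne'),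
    padicValRat.of_nat, padicValRat.of_nat]

lemma rat1_pos {p : Inp} (hp : PosInp p) : 0 < rat1 p :=
  div_pos (by exact_mod_cast hp.1) (by exact_mod_cast hp.2.1)

lemma rat2_pos {p : Inp} (hp : PosInp p) : 0 < rat2 p :=
  div_pos (by exact_mod_cast hp.2.2.1) (by exact_mod_cast hp.2.2.2)

/-- the test for the class -/
def ClassT (T : Finset ℕ) (D : ℕ) (p : Inp) : Prop :=
  PosInp p ∧ ((p.1.2.2 ∣ p.1.1 * (∏ ℓ ∈ T, ℓ) ^ p.1.2.2 ∧ p.1.1 ∣ p.1.2.2 * (∏ ℓ ∈ T, ℓ) ^ p.1.1) ∧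
    (p.2.2.2 ∣ p.2.1 * (∏ ℓ ∈ T, ℓ) ^ p.2.2.2 ∧ p.2.1 ∣ p.2.2.2 * (∏ ℓ ∈ T, ℓ) ^ p.2.1) ∧
    ∀ ℓ ∈ T, ∀ ℓ' ∈ T, MinT D (padicValNat ℓ p.1.1) (padicValNat ℓ p.1.2.2) (padicValNat ℓ p.2.1)
      (padicValNat ℓ p.2.2.2) (padicValNat ℓ' p.1.1) (padicValNat ℓ' p.1.2.2)
      (padicValNat ℓ' p.2.1) (padicValNat ℓ' p.2.2.2))

lemma classT_iff {T : Finset ℕ} (hT : ∀ ℓ ∈ T, ℓ.Prime) (D : ℕ) (p : Inp) :
    ClassT T D p ↔ InClass T D p := by
  unfold ClassT InClass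
  refine and_congr_right fun hp => ?_
  refine and_congr (tunit_iff hT hp.1 hp.2.1).symm (and_congr (tunit_iff hT hp.2.2.1 hp.2.2.2).symm ?_)
  unfold Minors
  refine forall_congr' fun ℓ => forall_congr' fun hℓ => forall_congr' fun ℓ' =>
    forall_congr' fun hℓ' => ?_
  rw [minT_iff, val_rat1 hp (hT ℓ hℓ), val_rat1 hp (hT ℓ' hℓ'), val_rat2 hp (hT ℓ hℓ),
    val_rat2 hp (hT ℓ' hℓ')]

lemma prim_ClassT {T : Finset ℕ} (hT : ∀ ℓ ∈ T, ℓ.Prime) (D : ℕ) : PrimrecPred (ClassT T D) := by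
  have hP : Primrec fun _ : Inp => ∏ ℓ ∈ T, ℓ := Primrec.const _
  have d : ∀ {f g : Inp → ℕ}, Primrec f → Primrec g →
      PrimrecPred fun x => f x ∣ g x * (∏ ℓ ∈ T, ℓ) ^ f x :=
    fun hf hg => prim_dvd hf (Primrec.nat_mul.comp hg (prim_pow.comp hP hf))
  refine prim_PosInp.and (((d p13 p11).and (d p11 p13)).and (((d p23 p21).and (d p21 p23)).and ?_))
  refine prim_forall T _ fun ℓ hℓ => prim_forall T _ fun ℓ' hℓ' => ?_
  have v := prim_val (hT ℓ hℓ)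
  have v' := prim_val (hT ℓ' hℓ')
  exact prim_MinT D (v.comp p11) (v.comp p13) (v.comp p21) (v.comp p23) (v'.comp p11) (v'.comp p13)
    (v'.comp p21) (v'.comp p23)

/-- the ratio is `e` -/
def RatT (e : ℚ) (x z : ℕ) : Prop := x * e.den = e.num.natAbs * z

lemma ratT_iff {e : ℚ} (he : 0 < e) {x z : ℕ} (hz : 0 < z) : RatT e x z ↔ (x : ℚ) / z = e := by
  unfold RatT
  have hz' : (z : ℚ) ≠ 0 := by exact_mod_cast hz.ne'
  have hd : (e.den : ℚ) ≠ 0 := by exact_mod_cast e.den_pos.ne'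
  have e1 : ((e.num.natAbs : ℕ) : ℚ) / e.den = e := by
    rw [Nat.cast_natAbs, abs_of_pos (Rat.num_pos.2 he)]
    exact Rat.num_div_den e
  conv_rhs => rw [← e1]
  rw [div_eq_div_iff hz' hd]
  norm_cast

lemma prim_RatT (e : ℚ) {f g : Inp → ℕ} (hf : Primrec f) (hg : Primrec g) :
    PrimrecPred fun p => RatT e (f p) (g p) :=
  Primrec.eq.comp (Primrec.nat_mul.comp hf (Primrec.const _))
    (Primrec.nat_mul.comp (Primrec.const _) hg)

/-- **Decidability for a finite set of primes and bounded minors.** -/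
theorem decidable_class {T : Finset ℕ} (hT : ∀ ℓ ∈ T, ℓ.Prime) (D : ℕ) :
    ComputablePred fun p : Inp => InClass T D p ∧ FreeInp p := by
  classical
  set E : Finset (ℚ × ℚ) := (finite_exceptions hT D).toFinset with hE
  set E' : Finset (ℚ × ℚ) := E.filter fun e => AlwaysFree e.1 e.2 with hE'
  have memE : ∀ e : ℚ × ℚ, e ∈ E ↔ 0 < e.1 ∧ 0 < e.2 ∧ e.1 ≠ 1 ∧ e.2 ≠ 1 ∧ TUnit T e.1 ∧
      TUnit T e.2 ∧ Minors T e.1 e.2 D ∧ ¬ Decided T e.1 e.2 := by
    intro e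
    rw [hE, Set.Finite.mem_toFinset, Set.mem_ofPred_eq]
  let In (S : Finset (ℚ × ℚ)) (p : Inp) : Prop :=
    ∃ e ∈ S, RatT e.1 p.1.1 p.1.2.2 ∧ RatT e.2 p.2.1 p.2.2.2
  have hIn : ∀ S : Finset (ℚ × ℚ), (∀ e ∈ S, 0 < e.1 ∧ 0 < e.2) → ∀ p : Inp, PosInp p →
      (In S p ↔ (rat1 p, rat2 p) ∈ S) := by
    intro S hS p hp
    constructor
    · rintro ⟨e, he, h1, h2⟩
      obtain ⟨e1, e2⟩ := hS e he
      rw [ratT_iff e1 hp.2.1] at h1
      rw [ratT_iff e2 hp.2.2.2] at h2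
      have : (rat1 p, rat2 p) = e := Prod.ext h1 h2
      rw [this]
      exact he
    · intro h
      refine ⟨_, h, ?_, ?_⟩
      · rw [ratT_iff (rat1_pos hp) hp.2.1]
        rfl
      · rw [ratT_iff (rat2_pos hp) hp.2.2.2]
        rfl
  have primIn : ∀ S : Finset (ℚ × ℚ), PrimrecPred (In S) := fun S =>
    prim_exists S _ fun e _ => (prim_RatT e.1 p11 p13).and (prim_RatT e.2 p21 p23)
  let Com (p : Inp) : Prop := ∃ ℓ ∈ T, ComT (padicValNat ℓ p.1.1) (padicValNat ℓ p.1.2.2)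
    (padicValNat ℓ p.2.1) (padicValNat ℓ p.2.2.2)
  have primCom : PrimrecPred Com := prim_exists T _ fun ℓ hℓ => by
    have v := prim_val (hT ℓ hℓ)
    exact prim_ComT (v.comp p11) (v.comp p13) (v.comp p21) (v.comp p23)
  have hCom : ∀ p : Inp, PosInp p → (Com p ↔ ∃ ℓ ∈ T, 0 < padicValRat ℓ (rat1 p) *
      padicValRat ℓ (rat2 p)) := by
    intro p hp
    refine exists_congr fun ℓ => and_congr_right fun hℓ => ?_
    rw [comT_iff, val_rat1 hp (hT ℓ hℓ), val_rat2 hp (hT ℓ hℓ)]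
  let Q (p : Inp) : Prop := ClassT T D p ∧
    ((¬ p.1.1 * p.2.2.1 + p.1.2.1 * p.2.2.2 = p.2.1 * p.1.2.1 + p.2.2.1 * p.1.2.2) ∧
      (¬ p.1.1 = p.1.2.2) ∧ (¬ p.2.1 = p.2.2.2) ∧ ((¬ In E p ∧ Com p) ∨ In E' p))
  have primQ : PrimrecPred Q := by
    have m : ∀ {f g : Inp → ℕ}, Primrec f → Primrec g → Primrec fun x => f x * g x :=
      fun hf hg => Primrec.nat_mul.comp hf hg
    have s : ∀ {f g : Inp → ℕ}, Primrec f → Primrec g → Primrec fun x => f x + g x :=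
      fun hf hg => Primrec.nat_add.comp hf hg
    exact (prim_ClassT hT D).and
      ((Primrec.eq.comp (s (m p11 p22) (m p12 p23)) (s (m p21 p12) (m p22 p13))).not.and
        ((Primrec.eq.comp p11 p13).not.and ((Primrec.eq.comp p21 p23).not.and
          (((primIn E).not.and primCom).or (primIn E')))))
  refine primQ.computablePred.of_eq fun p => ?_
  show (ClassT T D p ∧ _) ↔ _
  rw [classT_iff hT]
  refine and_congr_right fun hc => ?_
  obtain ⟨hp, hTa, hTb, hD⟩ := hc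
  have hz1 : (p.1.2.2 : ℚ) ≠ 0 := by exact_mod_cast hp.2.1.ne'
  have hz2 : (p.2.2.2 : ℚ) ≠ 0 := by exact_mod_cast hp.2.2.2.ne'
  have ha : 0 < rat1 p := rat1_pos hp
  have hb : 0 < rat2 p := rat2_pos hp
  have hEpos : ∀ e ∈ E, 0 < e.1 ∧ 0 < e.2 := fun e he => by
    rw [memE] at he
    exact ⟨he.1, he.2.1⟩
  have hE'pos : ∀ e ∈ E', 0 < e.1 ∧ 0 < e.2 := fun e he => hEpos e (Finset.mem_filter.1 he).1
  have hone1 : p.1.1 = p.1.2.2 ↔ rat1 p = 1 := by
    rw [rat1, div_eq_one_iff_eq hz1]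
    norm_cast
  have hone2 : p.2.1 = p.2.2.2 ↔ rat2 p = 1 := by
    rw [rat2, div_eq_one_iff_eq hz2]
    norm_cast
  rw [hIn E hEpos p hp, hIn E' hE'pos p hp, hCom p hp, hone1, hone2]
  have use : AlwaysFree (rat1 p) (rat2 p) →
      (¬ p.1.1 * p.2.2.1 + p.1.2.1 * p.2.2.2 = p.2.1 * p.1.2.1 + p.2.2.1 * p.1.2.2) → FreeInp p :=
    fun h hnc => h p.1.1 p.1.2.1 p.1.2.2 p.2.1 p.2.2.1 p.2.2.2 hp.1 hp.2.1 hp.2.2.1 hp.2.2.2 rfl rfl
      fun h' => hnc (comm_iff.1 h')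
  have nev : NeverFree (rat1 p) (rat2 p) → ¬ FreeInp p :=
    fun h => h p.1.1 p.1.2.1 p.1.2.2 p.2.1 p.2.2.1 p.2.2.2 hp.1 hp.2.1 hp.2.2.1 hp.2.2.2 rfl rfl
  constructor
  · rintro ⟨hnc, h1, h2, ⟨h3, h4⟩ | h3⟩
    · rw [memE] at h3
      push Not at h3
      have h5 : Decided T (rat1 p) (rat2 p) := h3 ha hb h1 h2 hTa hTb hD
      rcases h5 with ⟨_, h6⟩ | ⟨h6, _⟩
      · exact use h6 hnc
      · obtain ⟨ℓ, hℓ, h7⟩ := h4
        exact absurd (h6 ℓ hℓ) (not_le.2 h7)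
    · exact use (Finset.mem_filter.1 h3).2 hnc
  · intro hf
    refine ⟨fun hc => not_free_of_comm' hc hf, fun h1 => ?_, fun h2 => ?_, ?_⟩
    · exact nev (by rw [h1]; exact never_one_left _) hf
    · exact nev (by rw [h2]; exact never_one_right _) hf
    · by_cases hmem : (rat1 p, rat2 p) ∈ E
      · right
        rw [hE', Finset.mem_filter]
        refine ⟨hmem, ?_⟩
        rcases dichotomy ha hb with h | h
        · exact h
        · exact absurd hf (nev h)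
      · left
        refine ⟨hmem, ?_⟩
        by_cases h1 : rat1 p = 1
        · exact absurd hf (nev (by rw [h1]; exact never_one_left _))
        by_cases h2 : rat2 p = 1
        · exact absurd hf (nev (by rw [h2]; exact never_one_right _))
        rw [memE] at hmem
        push Not at hmem
        rcases hmem ha hb h1 h2 hTa hTb hD with h6 | h6
        · exact h6.1
        · exact absurd hf (nev h6.2)

end Pool.Agent.H82.ND
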