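import Pool.Agent.H82.ND.Entro

/-!
# Nearly dependent ratios

`a`, `b` positive rationals whose numerators and denominators are composed of the primes of a finite
set `T`; `D` bounds the `2 × 2` minors of the exponents, `M` and `m` are the largest exponents. If
`P ^ D < (m + M) ^ (m + M) / (m ^ m * M ^ M)`, then both maxima are attained at one prime, and
`a ^ m * b ^ M` has a small height.
-/

set_option autoImplicit false

namespace Pool.Agent.H82.ND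

open Finset Pool.Agent.H49.FD Pool.Agent.H54.Free

/-- `c` is composed of the primes of `T` -/
def TUnit (T : Finset ℕ) (c : ℚ) : Prop := ∀ ℓ : ℕ, ℓ.Prime → ℓ ∉ T → padicValRat ℓ c = 0

/-- the largest absolute value of an exponent of `c` at the primes of `T` -/
def mx (T : Finset ℕ) (c : ℚ) : ℕ := T.sup fun ℓ => (padicValRat ℓ c).natAbs

/-- all `2 × 2` minors of the exponents of `a` and `b` are at most `D` -/
def Minors (T : Finset ℕ) (a b : ℚ) (D : ℕ) : Prop :=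
  ∀ ℓ ∈ T, ∀ ℓ' ∈ T,
    |padicValRat ℓ a * padicValRat ℓ' b - padicValRat ℓ' a * padicValRat ℓ b| ≤ D

lemma num_den_le {T : Finset ℕ} (hT : ∀ ℓ ∈ T, ℓ.Prime) {c : ℚ} (hc : 0 < c) (hu : TUnit T c)
    {D : ℕ} (hD : ∀ ℓ ∈ T, |padicValRat ℓ c| ≤ D) :
    c.num.natAbs ≤ (∏ ℓ ∈ T, ℓ) ^ D ∧ c.den ≤ (∏ ℓ ∈ T, ℓ) ^ D := by
  have hn0 : c.num.natAbs ≠ 0 := Int.natAbs_ne_zero.2 (Rat.num_pos.2 hc).ne'
  have hd0 : c.den ≠ 0 := c.den_pos.ne'
  have key : ∀ n : ℕ, n ≠ 0 → (∀ ℓ : ℕ, ℓ.Prime → ℓ ∣ n → ℓ ∈ T ∧ padicValNat ℓ n ≤ D) →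
      n ≤ (∏ ℓ ∈ T, ℓ) ^ D := by
    intro n hn h
    calc n = ∏ ℓ ∈ n.primeFactors, ℓ ^ n.factorization ℓ :=
          (Nat.prod_factorization_pow_eq_self hn).symm
      _ ≤ ∏ ℓ ∈ n.primeFactors, ℓ ^ D := by
          refine Finset.prod_le_prod' fun ℓ hℓ => ?_
          have hp := Nat.prime_of_mem_primeFactors hℓ
          refine Nat.pow_le_pow_right hp.pos ?_
          rw [Nat.factorization_def n hp]
          exact (h ℓ hp (Nat.dvd_of_mem_primeFactors hℓ)).2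
      _ ≤ ∏ ℓ ∈ T, ℓ ^ D := by
          refine Finset.prod_le_prod_of_subset_of_one_le' ?_ ?_
          · intro ℓ hℓ
            exact (h ℓ (Nat.prime_of_mem_primeFactors hℓ) (Nat.dvd_of_mem_primeFactors hℓ)).1
          · intro ℓ hℓ _
            exact Nat.one_le_pow _ _ (hT ℓ hℓ).pos
      _ = (∏ ℓ ∈ T, ℓ) ^ D := Finset.prod_pow _ _ _
  constructor
  · refine key _ hn0 fun ℓ hp hdvd => ?_
    have h1 : padicValNat ℓ c.den = 0 := by
      refine padicValNat.eq_zero_of_not_dvd fun h => ?_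
      exact Nat.Prime.one_lt hp |>.ne' (Nat.eq_one_of_dvd_coprimes c.reduced hdvd h)
    have h2 : padicValRat ℓ c = padicValNat ℓ c.num.natAbs := by
      unfold padicValRat padicValInt
      rw [h1]
      simp
    have : Fact ℓ.Prime := ⟨hp⟩
    have h3 : 1 ≤ padicValNat ℓ c.num.natAbs := one_le_padicValNat_of_dvd hn0 hdvd
    have h4 : ℓ ∈ T := by
      by_contra h
      have := hu ℓ hp h
      rw [h2] at this
      omega
    refine ⟨h4, ?_⟩
    have := hD ℓ h4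
    rw [h2, Nat.abs_cast] at this
    exact_mod_cast this
  · refine key _ hd0 fun ℓ hp hdvd => ?_
    have h1 : padicValNat ℓ c.num.natAbs = 0 := by
      refine padicValNat.eq_zero_of_not_dvd fun h => ?_
      exact Nat.Prime.one_lt hp |>.ne' (Nat.eq_one_of_dvd_coprimes c.reduced h hdvd)
    have h2 : padicValRat ℓ c = -(padicValNat ℓ c.den : ℤ) := by
      unfold padicValRat padicValInt
      rw [h1]
      simp
    have : Fact ℓ.Prime := ⟨hp⟩
    have h3 : 1 ≤ padicValNat ℓ c.den := one_le_padicValNat_of_dvd hd0 hdvd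
    have h4 : ℓ ∈ T := by
      by_contra h
      have := hu ℓ hp h
      rw [h2] at this
      omega
    refine ⟨h4, ?_⟩
    have := hD ℓ h4
    rw [h2, abs_neg, Nat.abs_cast] at this
    exact_mod_cast this

/-- if both maxima are not attained at one prime, some minor is large -/
lemma exists_common_half {T : Finset ℕ} (hT : ∀ ℓ ∈ T, ℓ.Prime) (α β : ℕ → ℤ) {D M m : ℕ}
    (hM : M = T.sup fun ℓ => (α ℓ).natAbs) (hm : m = T.sup fun ℓ => (β ℓ).natAbs)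
    (hD : ∀ ℓ ∈ T, ∀ ℓ' ∈ T, |α ℓ * β ℓ' - α ℓ' * β ℓ| ≤ D)
    (h : (∏ ℓ ∈ T, ℓ) ^ D * (m ^ m * M ^ M) < (m + M) ^ (m + M)) (hmM : m ≤ M) (hm0 : 1 ≤ m) :
    ∃ ℓ ∈ T, (α ℓ).natAbs = M ∧ (β ℓ).natAbs = m := by
  have hne : T.Nonempty := by
    rw [Finset.nonempty_iff_ne_empty]
    rintro rfl
    rw [hm] at hm0
    simp at hm0
  obtain ⟨ℓ₁, h1, e1⟩ := Finset.exists_mem_eq_sup T hne fun ℓ => (α ℓ).natAbs
  obtain ⟨ℓ₂, h2, e2⟩ := Finset.exists_mem_eq_sup T hne fun ℓ => (β ℓ).natAbs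
  rw [← hM] at e1
  rw [← hm] at e2
  have a2 : (α ℓ₂).natAbs ≤ M := hM ▸ Finset.le_sup (f := fun ℓ => (α ℓ).natAbs) h2
  have b1 : (β ℓ₁).natAbs ≤ m := hm ▸ Finset.le_sup (f := fun ℓ => (β ℓ).natAbs) h1
  rcases b1.eq_or_lt with b1 | b1
  · exact ⟨ℓ₁, h1, e1.symm, b1⟩
  exfalso
  have hne12 : ℓ₁ ≠ ℓ₂ := by
    rintro rfl
    omega
  have h3 := hD ℓ₁ h1 ℓ₂ h2
  have h4 : (M : ℤ) ≤ D := by
    have t1 : |α ℓ₁ * β ℓ₂| = (M : ℤ) * m := by
      rw [abs_mul, Int.abs_eq_natAbs, Int.abs_eq_natAbs, ← e1, ← e2]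
    have t2 : |α ℓ₂ * β ℓ₁| ≤ (M : ℤ) * (m - 1) := by
      rw [abs_mul, Int.abs_eq_natAbs, Int.abs_eq_natAbs]
      have : ((β ℓ₁).natAbs : ℤ) ≤ m - 1 := by omega
      have a2' : ((α ℓ₂).natAbs : ℤ) ≤ M := by exact_mod_cast a2
      exact mul_le_mul a2' this (by positivity) (by positivity)
    have t3 := abs_sub_abs_le_abs_sub (α ℓ₁ * β ℓ₂) (α ℓ₂ * β ℓ₁)
    rw [t1] at t3
    nlinarith
  have h4' : M ≤ D := by exact_mod_cast h4
  have hP : 4 ≤ ∏ ℓ ∈ T, ℓ := by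
    have hsub : ({ℓ₁, ℓ₂} : Finset ℕ) ⊆ T := by
      intro x hx
      rw [Finset.mem_insert, Finset.mem_singleton] at hx
      rcases hx with rfl | rfl
      · exact h1
      · exact h2
    calc 4 ≤ ℓ₁ * ℓ₂ := Nat.mul_le_mul (hT _ h1).two_le (hT _ h2).two_le
      _ = ∏ ℓ ∈ ({ℓ₁, ℓ₂} : Finset ℕ), ℓ := (Finset.prod_pair (f := fun x : ℕ => x) hne12).symm
      _ ≤ ∏ ℓ ∈ T, ℓ := Finset.prod_le_prod_of_subset_of_one_le' hsub
          fun i hi _ => (hT i hi).one_le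
  have h6 : 2 ^ (m + M) ≤ (∏ ℓ ∈ T, ℓ) ^ D := by
    calc 2 ^ (m + M) ≤ 2 ^ (2 * M) := Nat.pow_le_pow_right (by norm_num) (by omega)
      _ = 4 ^ M := by rw [pow_mul]; norm_num
      _ ≤ 4 ^ D := Nat.pow_le_pow_right (by norm_num) h4'
      _ ≤ _ := Nat.pow_le_pow_left hP D
  have h5 : (m + M) ^ (m + M) ≤ (∏ ℓ ∈ T, ℓ) ^ D * (m ^ m * M ^ M) :=
    (entropy_le hm0 (hm0.trans hmM)).trans (Nat.mul_le_mul_right _ h6)
  omega

lemma exists_common {T : Finset ℕ} (hT : ∀ ℓ ∈ T, ℓ.Prime) {a b : ℚ} {D : ℕ}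
    (hD : Minors T a b D) (h : (∏ ℓ ∈ T, ℓ) ^ D * (mx T b ^ mx T b * mx T a ^ mx T a) <
      (mx T b + mx T a) ^ (mx T b + mx T a)) :
    (∃ ℓ ∈ T, (padicValRat ℓ a).natAbs = mx T a ∧ (padicValRat ℓ b).natAbs = mx T b) ∧
      1 ≤ mx T a ∧ 1 ≤ mx T b := by
  have hP : 1 ≤ (∏ ℓ ∈ T, ℓ) ^ D :=
    Nat.one_le_pow _ _ (Finset.prod_pos fun ℓ hℓ => (hT ℓ hℓ).pos)
  have hb0 : 1 ≤ mx T b := by
    by_contra hc
    have h0 : mx T b = 0 := by omega
    rw [h0, pow_zero, one_mul, zero_add] at h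
    have := Nat.le_mul_of_pos_left (mx T a ^ mx T a) hP
    omega
  have ha0 : 1 ≤ mx T a := by
    by_contra hc
    have h0 : mx T a = 0 := by omega
    rw [h0, pow_zero, mul_one, add_zero] at h
    have := Nat.le_mul_of_pos_left (mx T b ^ mx T b) hP
    omega
  refine ⟨?_, ha0, hb0⟩
  rcases le_total (mx T b) (mx T a) with h1 | h1
  · exact exists_common_half hT (fun ℓ => padicValRat ℓ a) (fun ℓ => padicValRat ℓ b) rfl rfl hD h
      h1 hb0
  · have h2 : (∏ ℓ ∈ T, ℓ) ^ D * (mx T a ^ mx T a * mx T b ^ mx T b) <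
        (mx T a + mx T b) ^ (mx T a + mx T b) := by
      rw [mul_comm (mx T a ^ mx T a), add_comm]
      exact h
    obtain ⟨ℓ, hℓ, e1, e2⟩ := exists_common_half hT (fun ℓ => padicValRat ℓ b)
      (fun ℓ => padicValRat ℓ a) (D := D) rfl rfl (fun ℓ h3 ℓ' h4 => by
        have := hD ℓ h3 ℓ' h4
        rw [← abs_neg] at this
        convert this using 2
        ring) h2 h1 ha0
    exact ⟨ℓ, hℓ, e2, e1⟩

/-- without a common prime `a ^ m * b ^ M` has a small height -/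
theorem height_of_minors {T : Finset ℕ} (hT : ∀ ℓ ∈ T, ℓ.Prime) {a b : ℚ} (ha : 0 < a) (hb : 0 < b)
    (hTa : TUnit T a) (hTb : TUnit T b) {D : ℕ} (hD : Minors T a b D)
    (h : (∏ ℓ ∈ T, ℓ) ^ D * (mx T b ^ mx T b * mx T a ^ mx T a) <
      (mx T b + mx T a) ^ (mx T b + mx T a))
    (hno : ∀ ℓ ∈ T, padicValRat ℓ a * padicValRat ℓ b ≤ 0) :
    0 < mx T b ∧ 0 < mx T a ∧ (a ^ mx T b * b ^ mx T a).num.natAbs ≤ (∏ ℓ ∈ T, ℓ) ^ D ∧
      (a ^ mx T b * b ^ mx T a).den ≤ (∏ ℓ ∈ T, ℓ) ^ D := by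
  obtain ⟨⟨ℓ₁, h1, e1, e2⟩, hM0, hm0⟩ := exists_common hT hD h
  set m := mx T b with hm
  set M := mx T a with hM
  have hval : ∀ ℓ : ℕ, ℓ.Prime → padicValRat ℓ (a ^ m * b ^ M) =
      m * padicValRat ℓ a + M * padicValRat ℓ b := by
    intro ℓ hp
    have : Fact ℓ.Prime := ⟨hp⟩
    rw [padicValRat.mul (pow_pos ha _).ne' (pow_pos hb _).ne', padicValRat.pow, padicValRat.pow]
  have hc : 0 < a ^ m * b ^ M := mul_pos (pow_pos ha _) (pow_pos hb _)
  have hu : TUnit T (a ^ m * b ^ M) := by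
    intro ℓ hp hℓ
    rw [hval ℓ hp, hTa ℓ hp hℓ, hTb ℓ hp hℓ]
    ring
  have hv : ∀ ℓ ∈ T, |padicValRat ℓ (a ^ m * b ^ M)| ≤ D := by
    intro ℓ hℓ
    rw [hval ℓ (hT ℓ hℓ)]
    have h3 := hD ℓ₁ h1 ℓ hℓ
    have h4 := hno ℓ₁ h1
    rcases le_total 0 (padicValRat ℓ₁ a) with h5 | h5
    · rcases h5.eq_or_lt with h6 | h6
      · have hM0 : M = 0 := by rw [← e1, ← h6]; rfl
        omega
      · have h7 : padicValRat ℓ₁ b ≤ 0 := by
          by_contra h8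
          push Not at h8
          have := mul_pos h6 h8
          omega
        have e3 : (M : ℤ) = padicValRat ℓ₁ a := by omega
        have e4 : (m : ℤ) = -padicValRat ℓ₁ b := by omega
        rw [e3, e4]
        convert h3 using 2
        ring
    · rcases h5.eq_or_lt with h6 | h6
      · have hM0 : M = 0 := by rw [← e1, h6]; rfl
        omega
      · have h7 : 0 ≤ padicValRat ℓ₁ b := by
          by_contra h8
          push Not at h8
          have := mul_pos_of_neg_of_neg h6 h8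
          omega
        have e3 : (M : ℤ) = -padicValRat ℓ₁ a := by omega
        have e4 : (m : ℤ) = padicValRat ℓ₁ b := by omega
        rw [e3, e4, ← abs_neg]
        convert h3 using 2
        ring
  obtain ⟨n1, n2⟩ := num_den_le hT hc hu hv
  exact ⟨hm0, hM0, n1, n2⟩

/-- **Nearly dependent ratios without a common prime: never free.** -/
theorem never_of_minors {T : Finset ℕ} (hT : ∀ ℓ ∈ T, ℓ.Prime) {a b : ℚ} (ha : 0 < a) (hb : 0 < b)
    (hTa : TUnit T a) (hTb : TUnit T b) {D : ℕ} (hD : Minors T a b D)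
    (h : (∏ ℓ ∈ T, ℓ) ^ D * (mx T b ^ mx T b * mx T a ^ mx T a) <
      (mx T b + mx T a) ^ (mx T b + mx T a))
    (hno : ∀ ℓ ∈ T, padicValRat ℓ a * padicValRat ℓ b ≤ 0) : NeverFree a b := by
  obtain ⟨hm0, hM0, n1, n2⟩ := height_of_minors hT ha hb hTa hTb hD h hno
  have hc : 0 < a ^ mx T b * b ^ mx T a := mul_pos (pow_pos ha _) (pow_pos hb _)
  have hnum : (((a ^ mx T b * b ^ mx T a).num.natAbs : ℕ) : ℚ) / (a ^ mx T b * b ^ mx T a).den =
      a ^ mx T b * b ^ mx T a := by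
    rw [Nat.cast_natAbs, abs_of_pos (Rat.num_pos.2 hc)]
    exact Rat.num_div_den _
  exact never_of_entropy (i := mx T b) (j := mx T a) hm0 hM0
    (Int.natAbs_pos.2 (Rat.num_pos.2 hc).ne')
    (a ^ mx T b * b ^ mx T a).den_pos hnum.symm ((Nat.mul_le_mul_right _ n1).trans_lt h)
    ((Nat.mul_le_mul_right _ n2).trans_lt h)

lemma norm_lt_one_of_val {ℓ : ℕ} [hp : Fact ℓ.Prime] {c : ℚ} (hc : c ≠ 0)
    (h : 0 < padicValRat ℓ c) : padicNorm ℓ c < 1 := by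
  rw [padicNorm.eq_zpow_of_nonzero hc]
  exact zpow_lt_one_of_neg₀ (by exact_mod_cast hp.out.one_lt) (by omega)

lemma one_lt_norm_of_val {ℓ : ℕ} [hp : Fact ℓ.Prime] {c : ℚ} (hc : c ≠ 0)
    (h : padicValRat ℓ c < 0) : 1 < padicNorm ℓ c := by
  rw [padicNorm.eq_zpow_of_nonzero hc]
  exact one_lt_zpow₀ (by exact_mod_cast hp.out.one_lt) (by omega)

/-- A common prime forces freeness (Cassaigne, Harju, Karhumäki). -/
lemma always_of_common {ℓ : ℕ} (hp : ℓ.Prime) {a b : ℚ} (ha : 0 < a) (hb : 0 < b)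
    (h : 0 < padicValRat ℓ a * padicValRat ℓ b) : AlwaysFree a b := by
  have : Fact ℓ.Prime := ⟨hp⟩
  rcases pos_and_pos_or_neg_and_neg_of_mul_pos h with ⟨h1, h2⟩ | ⟨h1, h2⟩
  · exact always_of_padic ha.ne' hb.ne' (norm_lt_one_of_val ha.ne' h1)
      (norm_lt_one_of_val hb.ne' h2)
  · exact always_of_padic_inv ha.ne' hb.ne' (one_lt_norm_of_val ha.ne' h1)
      (one_lt_norm_of_val hb.ne' h2)

end Pool.Agent.H82.ND
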