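import Pool.Agent.H82.ND.Crit

/-!
# Symmetries of the property never free, and one relation for all pairs with given ratios
-/

set_option autoImplicit false

namespace Pool.Agent.H82.ND

open Finset Pool.Agent.H49.FD Pool.Agent.H54.Free

/-- interchanging the two matrices -/
lemma never_swap {a b : ℚ} (h : NeverFree a b) : NeverFree b a := by
  intro x₁ y₁ z₁ x₂ y₂ z₂ hx₁ hz₁ hx₂ hz₂ e₁ e₂ hf
  refine h x₂ y₂ z₂ x₁ y₁ z₁ hx₂ hz₂ hx₁ hz₁ e₂ e₁ ?_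
  intro w w' hw hw' hp
  have key : ∀ w : List Bool, ((w.map not).map (fun b => if b then
      (!![x₂, y₂; 0, z₂] : Matrix (Fin 2) (Fin 2) ℕ)
      else (!![x₁, y₁; 0, z₁] : Matrix (Fin 2) (Fin 2) ℕ))) =
      w.map (fun b => if b then (!![x₁, y₁; 0, z₁] : Matrix (Fin 2) (Fin 2) ℕ)
      else (!![x₂, y₂; 0, z₂] : Matrix (Fin 2) (Fin 2) ℕ)) := by
    intro w
    rw [List.map_map]
    refine List.map_congr_left fun c _ => ?_
    cases c <;> rfl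
  have h1 := hf (w.map not) (w'.map not) (by simpa using hw) (by simpa using hw')
    (by rw [key, key]; exact hp)
  exact List.map_injective_iff.2 (fun x y hxy => by simpa using hxy) h1

/-- the reflection of a matrix in the antidiagonal -/
def flip (A : Matrix (Fin 2) (Fin 2) ℕ) : Matrix (Fin 2) (Fin 2) ℕ := !![A 1 1, A 0 1; A 1 0, A 0 0]

lemma flip_mul (A B : Matrix (Fin 2) (Fin 2) ℕ) : flip (A * B) = flip B * flip A := by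
  unfold flip
  rw [Matrix.mul_fin_two]
  ext i j
  fin_cases i <;> fin_cases j <;> simp [Matrix.mul_apply, Fin.sum_univ_two] <;> ring

lemma flip_flip (A : Matrix (Fin 2) (Fin 2) ℕ) : flip (flip A) = A := by
  unfold flip
  ext i j
  fin_cases i <;> fin_cases j <;> simp

lemma PM_flip {x₁ y₁ z₁ x₂ y₂ z₂ : ℕ} (w : List Bool) :
    PM z₁ y₁ x₁ z₂ y₂ x₂ w = flip (PM x₁ y₁ z₁ x₂ y₂ z₂ w.reverse) := by
  induction w with
  | nil =>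
    unfold PM flip
    ext i j
    fin_cases i <;> fin_cases j <;> simp
  | cons c w ih =>
    have e : PM z₁ y₁ x₁ z₂ y₂ x₂ (c :: w) = PM z₁ y₁ x₁ z₂ y₂ x₂ [c] * PM z₁ y₁ x₁ z₂ y₂ x₂ w := by
      rw [← PM_append]
      rfl
    rw [e, ih, List.reverse_cons, PM_append, flip_mul]
    congr 1
    cases c <;> simp [PM, flip]

/-- passing to the inverse ratios -/
lemma never_inv {a b : ℚ} (h : NeverFree a b) : NeverFree a⁻¹ b⁻¹ := by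
  intro x₁ y₁ z₁ x₂ y₂ z₂ hx₁ hz₁ hx₂ hz₂ e₁ e₂ hf
  refine h z₁ y₁ x₁ z₂ y₂ x₂ hz₁ hx₁ hz₂ hx₂ (by rw [← inv_div, e₁, inv_inv])
    (by rw [← inv_div, e₂, inv_inv]) ?_
  intro w w' hw hw' hp
  have h1 : PM z₁ y₁ x₁ z₂ y₂ x₂ w = PM z₁ y₁ x₁ z₂ y₂ x₂ w' := hp
  have h1 : flip (PM x₁ y₁ z₁ x₂ y₂ z₂ w.reverse) = flip (PM x₁ y₁ z₁ x₂ y₂ z₂ w'.reverse) :=
    (PM_flip w).symm.trans (h1.trans (PM_flip w'))
  have h2 : PM x₁ y₁ z₁ x₂ y₂ z₂ w.reverse = PM x₁ y₁ z₁ x₂ y₂ z₂ w'.reverse := by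
    rw [← flip_flip (PM x₁ y₁ z₁ x₂ y₂ z₂ w.reverse), h1, flip_flip]
  have h3 := hf w.reverse w'.reverse (by simpa using hw) (by simpa using hw') h2
  exact List.reverse_injective h3

/-- **One relation for all pairs with the same ratios.** -/
theorem never_of_one {x₁ y₁ z₁ x₂ y₂ z₂ : ℕ} (hz₁ : 0 < z₁) (hz₂ : 0 < z₂) (h₁ : x₁ ≠ z₁)
    (h₂ : x₂ ≠ z₂) (hnc : x₁ * y₂ + y₁ * z₂ ≠ x₂ * y₁ + y₂ * z₁) {w w' : List Bool} (hne : w ≠ w')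
    (hw : w ≠ []) (hw' : w' ≠ []) (hf : w.count false = w'.count false)
    (ht : w.count true = w'.count true)
    (hp : PM x₁ y₁ z₁ x₂ y₂ z₂ w = PM x₁ y₁ z₁ x₂ y₂ z₂ w') :
    NeverFree ((x₁ : ℚ) / z₁) ((x₂ : ℚ) / z₂) := by
  intro X₁ Y₁ Z₁ X₂ Y₂ Z₂ hX₁ hZ₁ hX₂ hZ₂ e₁ e₂ hfree
  have hz1 : (z₁ : ℚ) ≠ 0 := by exact_mod_cast hz₁.ne'
  have hz2 : (z₂ : ℚ) ≠ 0 := by exact_mod_cast hz₂.ne'
  have hZ1 : (Z₁ : ℚ) ≠ 0 := by exact_mod_cast hZ₁.ne'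
  have hZ2 : (Z₂ : ℚ) ≠ 0 := by exact_mod_cast hZ₂.ne'
  by_cases hc : X₁ * Y₂ + Y₁ * Z₂ = X₂ * Y₁ + Y₂ * Z₁
  · have h3 := hfree [false, true] [true, false] (by simp) (by simp) (by
      simp only [List.map_cons, List.map_nil, List.prod_cons, List.prod_nil, mul_one,
        Bool.false_eq_true, if_false, if_true]
      rw [Matrix.mul_fin_two, Matrix.mul_fin_two]
      simp only [mul_zero, zero_mul, add_zero, zero_add]
      rw [hc, mul_comm X₁ X₂, mul_comm Z₁ Z₂])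
    simp at h3
  have hact := act_normal hz₁ hz₂ h₁ h₂ hnc (act_eq_of_prod_eq hz₁ hz₂ hp)
  rw [← e₁, ← e₂] at hact
  have n1 : X₁ ≠ Z₁ := by
    rintro rfl
    rw [div_self hZ1, eq_comm, div_eq_one_iff_eq hz1] at e₁
    exact h₁ (by exact_mod_cast e₁)
  have n2 : X₂ ≠ Z₂ := by
    rintro rfl
    rw [div_self hZ2, eq_comm, div_eq_one_iff_eq hz2] at e₂
    exact h₂ (by exact_mod_cast e₂)
  have k1 : (Z₁ : ℚ) - X₁ ≠ 0 := sub_ne_zero.2 (by exact_mod_cast n1.symm)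
  have k2 : (Z₂ : ℚ) - X₂ ≠ 0 := sub_ne_zero.2 (by exact_mod_cast n2.symm)
  set t₁ : ℚ := Y₁ / (Z₁ - X₁) with ht1
  set t₂ : ℚ := Y₂ / (Z₂ - X₂) with ht2
  have hne2 : t₂ - t₁ ≠ 0 := by
    intro h0
    apply hc
    have h1 : t₂ = t₁ := sub_eq_zero.1 h0
    rw [ht1, ht2, div_eq_div_iff k2 k1] at h1
    have : (X₁ : ℚ) * Y₂ + Y₁ * Z₂ = X₂ * Y₁ + Y₂ * Z₁ := by linarith
    exact_mod_cast this
  have hfc : ∀ t : ℚ, (((X₁ : ℚ) * t + Y₁) / Z₁ - t₁) / (t₂ - t₁) =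
      fM ((X₁ : ℚ) / Z₁) ((t - t₁) / (t₂ - t₁)) := by
    intro t
    have e : (Y₁ : ℚ) = t₁ * (Z₁ - X₁) := by rw [ht1]; field_simp
    simp only [add_zero]
    rw [e]
    field_simp
    ring
  have hgc : ∀ t : ℚ, (((X₂ : ℚ) * t + Y₂) / Z₂ - t₁) / (t₂ - t₁) =
      gM ((X₂ : ℚ) / Z₂) ((t - t₁) / (t₂ - t₁)) := by
    intro t
    have e : (Y₂ : ℚ) = t₂ * (Z₂ - X₂) := by rw [ht2]; field_simp
    rw [e]
    field_simp
    ring
  have h5 : act (fun t => ((X₁ : ℚ) * t + Y₁) / Z₁) (fun t => ((X₂ : ℚ) * t + Y₂) / Z₂) w 0 =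
      act (fun t => ((X₁ : ℚ) * t + Y₁) / Z₁) (fun t => ((X₂ : ℚ) * t + Y₂) / Z₂) w' 0 := by
    have h6 := act_conj (fun t => (t - t₁) / (t₂ - t₁)) hfc hgc w 0
    have h7 := act_conj (fun t => (t - t₁) / (t₂ - t₁)) hfc hgc w' 0
    rw [hact, ← h7] at h6
    have h8 := (div_left_inj' hne2).1 h6
    linarith
  obtain ⟨X, Y, Z, hZ, p1, p2⟩ := prod_act (x₁ := X₁) (y₁ := Y₁) (x₂ := X₂) (y₂ := Y₂) hZ₁ hZ₂ w
  obtain ⟨X', Y', Z', hZ', p1', p2'⟩ :=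
    prod_act (x₁ := X₁) (y₁ := Y₁) (x₂ := X₂) (y₂ := Y₂) hZ₁ hZ₂ w'
  rw [p2, p2', mul_zero, mul_zero, zero_add, zero_add] at h5
  have q1 : PM X₁ Y₁ Z₁ X₂ Y₂ Z₂ w = !![X, Y; 0, Z] := p1
  have q1' : PM X₁ Y₁ Z₁ X₂ Y₂ Z₂ w' = !![X', Y'; 0, Z'] := p1'
  have r := PM_word (x₁ := X₁) (y₁ := Y₁) (z₁ := Z₁) (x₂ := X₂) (y₂ := Y₂) (z₂ := Z₂) w
  have r' := PM_word (x₁ := X₁) (y₁ := Y₁) (z₁ := Z₁) (x₂ := X₂) (y₂ := Y₂) (z₂ := Z₂) w'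
  rw [← hf, ← ht] at r'
  have s1 : X = X' := by
    have u1 := congrFun (congrFun (q1.symm.trans r) 0) 0
    have u2 := congrFun (congrFun (q1'.symm.trans r') 0) 0
    simp at u1 u2
    rw [u1, u2]
  have s2 : Z = Z' := by
    have u1 := congrFun (congrFun (q1.symm.trans r) 1) 1
    have u2 := congrFun (congrFun (q1'.symm.trans r') 1) 1
    simp at u1 u2
    rw [u1, u2]
  have s3 : Y = Y' := by
    rw [s2] at h5
    have hZq : (Z' : ℚ) ≠ 0 := by exact_mod_cast hZ'.ne'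
    have := (div_left_inj' hZq).1 h5
    exact_mod_cast this
  refine hne (hfree w w' hw hw' ?_)
  exact (p1.trans (by rw [s1, s2, s3])).trans p1'.symm

end Pool.Agent.H82.ND
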