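import Pool.Agent.H82.ND.Fini
import Pool.Agent.H82.ND.Sym

/-!
# Freeness of a noncommuting pair only depends on the ratios
-/

set_option autoImplicit false

namespace Pool.Agent.H82.ND

open Finset Pool.Agent.H49.FD Pool.Agent.H54.Free

lemma never_one_left (b : ℚ) : NeverFree 1 b := by
  intro x₁ y₁ z₁ x₂ y₂ z₂ hx₁ hz₁ hx₂ hz₂ e₁ _
  have hz : (z₁ : ℚ) ≠ 0 := by exact_mod_cast hz₁.ne'
  rw [div_eq_one_iff_eq hz] at e₁
  have e : x₁ = z₁ := by exact_mod_cast e₁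
  subst e
  refine not_free_of_height (S := max x₂ z₂) (K := 1) hx₁ hz₁ hx₂ hz₂ ?_
  rw [pow_one, pow_one, Nat.choose_one_right, Nat.gcd_mul_left]
  have h1 : 0 < Nat.gcd x₂ z₂ := Nat.gcd_pos_of_pos_left _ hx₂
  have h2 : 0 < x₁ ^ max x₂ z₂ := pow_pos hx₁ _
  rw [Nat.mul_max_mul_left]
  calc x₁ ^ max x₂ z₂ * max x₂ z₂ < x₁ ^ max x₂ z₂ * (max x₂ z₂ + 1) :=
        Nat.mul_lt_mul_of_pos_left (Nat.lt_succ_self _) h2
    _ ≤ (max x₂ z₂ + 1) * (x₁ ^ max x₂ z₂ * Nat.gcd x₂ z₂) := by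
        rw [mul_comm]
        refine Nat.mul_le_mul_left _ ?_
        exact Nat.le_mul_of_pos_right _ h1

lemma never_one_right (a : ℚ) : NeverFree a 1 := never_swap (never_one_left a)

lemma not_free_of_comm' {x₁ y₁ z₁ x₂ y₂ z₂ : ℕ}
    (hc : x₁ * y₂ + y₁ * z₂ = x₂ * y₁ + y₂ * z₁) : ¬ FreePair x₁ y₁ z₁ x₂ y₂ z₂ := by
  intro hf
  have h3 := hf [false, true] [true, false] (by simp) (by simp) (by
    simp only [List.map_cons, List.map_nil, List.prod_cons, List.prod_nil, mul_one,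
      Bool.false_eq_true, if_false, if_true]
    rw [Matrix.mul_fin_two, Matrix.mul_fin_two]
    simp only [mul_zero, zero_mul, add_zero, zero_add]
    rw [hc, mul_comm x₁ x₂, mul_comm z₁ z₂])
  simp at h3

lemma comm_iff {x₁ y₁ z₁ x₂ y₂ z₂ : ℕ} :
    (!![x₁, y₁; 0, z₁] : Matrix (Fin 2) (Fin 2) ℕ) * !![x₂, y₂; 0, z₂] =
      !![x₂, y₂; 0, z₂] * !![x₁, y₁; 0, z₁] ↔ x₁ * y₂ + y₁ * z₂ = x₂ * y₁ + y₂ * z₁ := by
  rw [Matrix.mul_fin_two, Matrix.mul_fin_two]
  simp only [mul_zero, zero_mul, add_zero, zero_add]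
  constructor
  · intro h
    have := congrFun (congrFun h 0) 1
    simpa using this
  · intro h
    rw [h, mul_comm x₁ x₂, mul_comm z₁ z₂]

/-- primes of a rational number -/
def prs (c : ℚ) : Finset ℕ := c.num.natAbs.primeFactors ∪ c.den.primeFactors

lemma prs_prime {c : ℚ} : ∀ ℓ ∈ prs c, ℓ.Prime := by
  intro ℓ hℓ
  rw [prs, Finset.mem_union] at hℓ
  rcases hℓ with h | h
  · exact Nat.prime_of_mem_primeFactors h
  · exact Nat.prime_of_mem_primeFactors h

lemma tunit_of_subset {T : Finset ℕ} {c : ℚ} (hc : 0 < c) (h : prs c ⊆ T) : TUnit T c := by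
  intro ℓ hp hℓ
  have h1 : ℓ ∉ prs c := fun h' => hℓ (h h')
  rw [prs, Finset.mem_union, not_or] at h1
  have hn0 : c.num.natAbs ≠ 0 := Int.natAbs_ne_zero.2 (Rat.num_pos.2 hc).ne'
  have h2 : ¬ ℓ ∣ c.num.natAbs := fun hd => h1.1 (Nat.mem_primeFactors.2 ⟨hp, hd, hn0⟩)
  have h3 : ¬ ℓ ∣ c.den := fun hd => h1.2 (Nat.mem_primeFactors.2 ⟨hp, hd, c.den_pos.ne'⟩)
  unfold padicValRat padicValInt
  rw [padicValNat.eq_zero_of_not_dvd h2, padicValNat.eq_zero_of_not_dvd h3]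
  simp

lemma val_mul_zpow {ℓ : ℕ} (hp : ℓ.Prime) {a b : ℚ} (ha : 0 < a) (hb : 0 < b) (s t : ℤ) :
    padicValRat ℓ (a ^ s * b ^ t) = s * padicValRat ℓ a + t * padicValRat ℓ b := by
  have : Fact ℓ.Prime := ⟨hp⟩
  rw [padicValRat.mul (zpow_ne_zero _ ha.ne') (zpow_ne_zero _ hb.ne'), padicValRat.zpow,
    padicValRat.zpow]

lemma minors_zero_of_dep {T : Finset ℕ} (hT : ∀ ℓ ∈ T, ℓ.Prime) {a b : ℚ} (ha : 0 < a)
    (hb : 0 < b) {s t : ℤ} (h : a ^ s * b ^ t = 1) (hst : ¬ (s = 0 ∧ t = 0)) :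
    Minors T a b 0 := by
  intro ℓ hℓ ℓ' hℓ'
  have h1 := val_mul_zpow (hT ℓ hℓ) ha hb s t
  have h2 := val_mul_zpow (hT ℓ' hℓ') ha hb s t
  rw [h, padicValRat.one] at h1 h2
  set α := padicValRat ℓ a
  set β := padicValRat ℓ b
  set α' := padicValRat ℓ' a
  set β' := padicValRat ℓ' b
  have h3 : s * (α * β' - α' * β) = 0 := by linear_combination (-β') * h1 + β * h2
  have h4 : t * (α * β' - α' * β) = 0 := by linear_combination α' * h1 - α * h2
  have h5 : α * β' - α' * β = 0 := by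
    by_cases hs : s = 0
    · have ht : t ≠ 0 := fun ht => hst ⟨hs, ht⟩
      exact (mul_eq_zero.1 h4).resolve_left ht
    · exact (mul_eq_zero.1 h3).resolve_left hs
  rw [h5]
  simp

/-- **Dichotomy.** -/
theorem dichotomy {a b : ℚ} (ha : 0 < a) (hb : 0 < b) : AlwaysFree a b ∨ NeverFree a b := by
  by_cases ha1 : a = 1
  · rw [ha1]
    exact Or.inr (never_one_left b)
  by_cases hb1 : b = 1
  · rw [hb1]
    exact Or.inr (never_one_right a)
  by_cases hind : MulIndep a b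
  · by_contra hcon
    push Not at hcon
    obtain ⟨h1, h2⟩ := hcon
    unfold AlwaysFree at h1
    push Not at h1
    obtain ⟨x₁, y₁, z₁, x₂, y₂, z₂, hx₁, hz₁, hx₂, hz₂, e₁, e₂, hnc, hnf⟩ := h1
    unfold FreePair at hnf
    push Not at hnf
    obtain ⟨w, w', hw, hw', hp, hne⟩ := hnf
    have hz1 : (z₁ : ℚ) ≠ 0 := by exact_mod_cast hz₁.ne'
    have hz2 : (z₂ : ℚ) ≠ 0 := by exact_mod_cast hz₂.ne'
    have n1 : x₁ ≠ z₁ := by
      rintro rfl
      exact ha1 (by rw [← e₁, div_self hz1])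
    have n2 : x₂ ≠ z₂ := by
      rintro rfl
      exact hb1 (by rw [← e₂, div_self hz2])
    have hp' : PM x₁ y₁ z₁ x₂ y₂ z₂ w = PM x₁ y₁ z₁ x₂ y₂ z₂ w' := hp
    have r := PM_word (x₁ := x₁) (y₁ := y₁) (z₁ := z₁) (x₂ := x₂) (y₂ := y₂) (z₂ := z₂) w
    have r' := PM_word (x₁ := x₁) (y₁ := y₁) (z₁ := z₁) (x₂ := x₂) (y₂ := y₂) (z₂ := z₂) w'
    have hr := r.symm.trans (hp'.trans r')
    have u1 := congrFun (congrFun hr 0) 0
    have u2 := congrFun (congrFun hr 1) 1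
    simp at u1 u2
    have hslope : a ^ w.count false * b ^ w.count true =
        a ^ w'.count false * b ^ w'.count true := by
      rw [← e₁, ← e₂, div_pow, div_pow, div_pow, div_pow, div_mul_div_comm, div_mul_div_comm]
      have v1 : (x₁ : ℚ) ^ w.count false * (x₂ : ℚ) ^ w.count true =
          (x₁ : ℚ) ^ w'.count false * (x₂ : ℚ) ^ w'.count true := by exact_mod_cast u1
      have v2 : (z₁ : ℚ) ^ w.count false * (z₂ : ℚ) ^ w.count true =
          (z₁ : ℚ) ^ w'.count false * (z₂ : ℚ) ^ w'.count true := by exact_mod_cast u2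
      rw [v1, v2]
    have hz : a ^ ((w.count false : ℤ) - (w'.count false : ℤ)) *
        b ^ ((w.count true : ℤ) - (w'.count true : ℤ)) = 1 := by
      rw [zpow_sub₀ ha.ne', zpow_sub₀ hb.ne', zpow_natCast, zpow_natCast, zpow_natCast,
        zpow_natCast, div_mul_div_comm, hslope]
      exact div_self (mul_ne_zero (pow_ne_zero _ ha.ne') (pow_ne_zero _ hb.ne'))
    obtain ⟨c1, c2⟩ := hind _ _ hz
    refine h2 ?_
    have := never_of_one (x₁ := x₁) (y₁ := y₁) (z₁ := z₁) (x₂ := x₂) (y₂ := y₂) (z₂ := z₂) hz₁ hz₂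
      n1 n2 (fun h => hnc (comm_iff.2 h)) hne hw hw' (by omega) (by omega) hp'
    rwa [e₁, e₂] at this
  · unfold MulIndep at hind
    push Not at hind
    obtain ⟨s, t, h1, h2⟩ := hind
    set T : Finset ℕ := prs a ∪ prs b with hTdef
    have hT : ∀ ℓ ∈ T, ℓ.Prime := by
      intro ℓ hℓ
      rw [hTdef, Finset.mem_union] at hℓ
      rcases hℓ with h | h
      · exact prs_prime ℓ h
      · exact prs_prime ℓ h
    have hTa : TUnit T a := tunit_of_subset ha Finset.subset_union_left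
    have hTb : TUnit T b := tunit_of_subset hb Finset.subset_union_right
    have hD : Minors T a b 0 := minors_zero_of_dep hT ha hb h1 (fun h => h2 h.1 h.2)
    have k2 : 1 ≤ mx T a := by
      by_contra h
      exact ha1 (eq_one_of_mx hT ha hTa (by omega))
    have k3 : 1 ≤ mx T b := by
      by_contra h
      exact hb1 (eq_one_of_mx hT hb hTb (by omega))
    have hlt : (∏ ℓ ∈ T, ℓ) ^ 0 * (mx T b ^ mx T b * mx T a ^ mx T a) <
        (mx T b + mx T a) ^ (mx T b + mx T a) := by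
      rw [pow_zero, one_mul]
      have h3 := choose_mul_le (mx T b) (mx T a)
      obtain ⟨h4, h5⟩ := lt_choose k3 k2
      have h6 : 0 < mx T b ^ mx T b * mx T a ^ mx T a := Nat.mul_pos (pow_pos k3 _) (pow_pos k2 _)
      calc mx T b ^ mx T b * mx T a ^ mx T a < 2 * (mx T b ^ mx T b * mx T a ^ mx T a) := by omega
        _ ≤ (mx T b + mx T a).choose (mx T b) * (mx T b ^ mx T b * mx T a ^ mx T a) :=
          Nat.mul_le_mul_right _ (by omega)
        _ ≤ _ := h3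
    rcases decided_of_lt hT ha hb hTa hTb hD hlt with h | h
    · exact Or.inl h.2
    · exact Or.inr h.2

end Pool.Agent.H82.ND
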