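import Pool.Agent.H49.FD.LocClos

/-!
# The pigeonhole criterion in its limit form
-/

set_option autoImplicit false

namespace Pool.Agent.H82.ND

open Finset Pool.Agent.H49.FD Pool.Agent.H54.Free

/-- **Pigeonhole, limit form**: if `a ^ i * b ^ j = N₁ / N₂` and `N₁`, `N₂` are smaller than
`(i + j) ^ (i + j) / (i ^ i * j ^ j)`, then no pair with the ratios `a`, `b` is free. -/
theorem never_of_entropy {a b : ℚ} {i j N₁ N₂ : ℕ} (hi : 0 < i) (hj : 0 < j) (hN₁ : 0 < N₁)
    (hN₂ : 0 < N₂) (hab : a ^ i * b ^ j = (N₁ : ℚ) / N₂)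
    (h₁ : N₁ * (i ^ i * j ^ j) < (i + j) ^ (i + j))
    (h₂ : N₂ * (i ^ i * j ^ j) < (i + j) ^ (i + j)) : NeverFree a b := by
  set F := i ^ i * j ^ j with hF
  set E := (i + j) ^ (i + j) with hE
  set N := max N₁ N₂ with hN
  have hF0 : 0 < F := Nat.mul_pos (pow_pos hi _) (pow_pos hj _)
  have hN0 : 0 < N := lt_max_of_lt_left hN₁
  have hNF : N * F < E := by
    rcases max_cases N₁ N₂ with ⟨h, _⟩ | ⟨h, _⟩
    · rw [hN, h]; exact h₁
    · rw [hN, h]; exact h₂
  obtain ⟨n, hn1, hn⟩ := exists_pow_big (T := i + j + 1) (Nat.mul_pos hN0 hF0) hNF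
  have key : N ^ n < (n * i + n * j).choose (n * j) := by
    have h3 := pow_le_choose (i := n * i) (j := n * j) (Nat.mul_pos hn1 hj)
    have h4 : (n * i + n * j).choose (n * i) = (n * i + n * j).choose (n * j) :=
      Nat.choose_symm_add
    rw [h4] at h3
    set C := (n * i + n * j).choose (n * j) with hC
    have e1 : (n * i + n * j) ^ (n * i + n * j) = n ^ (n * i + n * j) * E ^ n := by
      rw [hE, ← pow_mul, ← Nat.mul_add n i j, mul_pow, mul_comm (i + j) n]
    have e2 : (n * i) ^ (n * i) * (n * j) ^ (n * j) = n ^ (n * i + n * j) * F ^ n := by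
      rw [hF, mul_pow, mul_pow, mul_pow, ← pow_mul, ← pow_mul, pow_add, mul_comm i n, mul_comm j n]
      ring
    rw [e1, e2] at h3
    have hnp : 0 < n ^ (n * i + n * j) := pow_pos hn1 _
    have h5 : E ^ n ≤ (n * i + n * j + 1) * (C * F ^ n) := by
      refine le_of_mul_le_mul_left (a := n ^ (n * i + n * j)) ?_ hnp
      calc n ^ (n * i + n * j) * E ^ n ≤
            (n * i + n * j + 1) * (C * (n ^ (n * i + n * j) * F ^ n)) := h3
        _ = n ^ (n * i + n * j) * ((n * i + n * j + 1) * (C * F ^ n)) := by ring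
    by_contra hc
    push Not at hc
    have h6 : E ^ n ≤ n * (i + j + 1) * (N * F) ^ n := by
      calc E ^ n ≤ (n * i + n * j + 1) * (C * F ^ n) := h5
        _ ≤ (n * (i + j + 1)) * (N ^ n * F ^ n) := by
            refine Nat.mul_le_mul ?_ (Nat.mul_le_mul_right _ hc)
            have : n * (i + j + 1) = n * i + n * j + n := by ring
            omega
        _ = n * (i + j + 1) * (N * F) ^ n := by rw [mul_pow N F n]
    omega
  have hle1 : N₁ ^ n ≤ N ^ n := Nat.pow_le_pow_left (le_max_left _ _) n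
  have hle2 : N₂ ^ n ≤ N ^ n := Nat.pow_le_pow_left (le_max_right _ _) n
  refine never_of_height (i := n * i) (j := n * j) (N₁ := N₁ ^ n) (N₂ := N₂ ^ n)
    (pow_pos hN₁ _) (pow_pos hN₂ _) ?_ (hle1.trans_lt key) (hle2.trans_lt key)
  push_cast
  rw [← div_pow, ← hab, mul_pow, ← pow_mul, ← pow_mul, mul_comm i n, mul_comm j n]

lemma choose_mul_le (x y : ℕ) : (x + y).choose x * (x ^ x * y ^ y) ≤ (x + y) ^ (x + y) := by
  have h1 : (x + y) ^ (x + y) = ∑ m ∈ range (x + y + 1), x ^ m * y ^ (x + y - m) * (x + y).choose m := by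
    rw [add_pow]
    simp
  rw [h1]
  have h2 := Finset.single_le_sum (f := fun m => x ^ m * y ^ (x + y - m) * (x + y).choose m)
    (s := range (x + y + 1)) (fun _ _ => Nat.zero_le _) (Finset.mem_range.2 (show x < x + y + 1 by omega))
  simp only [Nat.add_sub_cancel_left] at h2
  calc (x + y).choose x * (x ^ x * y ^ y) = x ^ x * y ^ y * (x + y).choose x := by ring
    _ ≤ _ := h2

lemma lt_choose {x y : ℕ} (hx : 1 ≤ x) (hy : 1 ≤ y) :
    x + 1 ≤ (x + y).choose x ∧ y + 1 ≤ (x + y).choose x := by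
  constructor
  · calc x + 1 = (x + 1).choose x := by rw [Nat.choose_succ_self_right]
      _ ≤ (x + y).choose x := Nat.choose_le_choose _ (by omega)
  · calc y + 1 = (1 + y).choose y := by rw [add_comm 1, Nat.choose_succ_self_right]
      _ ≤ (x + y).choose y := Nat.choose_le_choose _ (by omega)
      _ = _ := (Nat.choose_symm_add).symm

/-- the entropy is at most `log 2` -/
lemma entropy_le {m M : ℕ} (hm : 0 < m) (hM : 0 < M) :
    (m + M) ^ (m + M) ≤ 2 ^ (m + M) * (m ^ m * M ^ M) := by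
  have hm' : (0 : ℝ) < m := by exact_mod_cast hm
  have hM' : (0 : ℝ) < M := by exact_mod_cast hM
  have h1 := Real.convexOn_mul_log.2 (Set.mem_Ici.2 hm'.le) (Set.mem_Ici.2 hM'.le)
    (show (0 : ℝ) ≤ 1 / 2 by norm_num) (show (0 : ℝ) ≤ 1 / 2 by norm_num) (by norm_num)
  simp only [smul_eq_mul] at h1
  have e : (1 / 2 * (m : ℝ) + 1 / 2 * M) = ((m : ℝ) + M) / 2 := by ring
  rw [e, Real.log_div (by positivity) two_ne_zero] at h1
  have h2 : ((m : ℝ) + M) ^ (m + M) ≤ 2 ^ (m + M) * ((m : ℝ) ^ m * (M : ℝ) ^ M) := by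
    rw [← Real.log_le_log_iff (by positivity) (by positivity), Real.log_pow,
      Real.log_mul (by positivity) (by positivity), Real.log_mul (by positivity) (by positivity),
      Real.log_pow, Real.log_pow, Real.log_pow]
    push_cast
    nlinarith [h1]
  exact_mod_cast h2

end Pool.Agent.H82.ND
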