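import Pool.Agent.H82.ND.Crit

/-!
# For a finite set of primes and bounded minors only finitely many pairs remain
-/

set_option autoImplicit false

namespace Pool.Agent.H82.ND

open Finset Pool.Agent.H49.FD Pool.Agent.H54.Free

/-- the pair is decided: it is never free if there is no common prime, always free if there is -/
def Decided (T : Finset ℕ) (a b : ℚ) : Prop :=
  ((∃ ℓ ∈ T, 0 < padicValRat ℓ a * padicValRat ℓ b) ∧ AlwaysFree a b) ∨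
    ((∀ ℓ ∈ T, padicValRat ℓ a * padicValRat ℓ b ≤ 0) ∧ NeverFree a b)

theorem decided_of_lt {T : Finset ℕ} (hT : ∀ ℓ ∈ T, ℓ.Prime) {a b : ℚ} (ha : 0 < a) (hb : 0 < b)
    (hTa : TUnit T a) (hTb : TUnit T b) {D : ℕ} (hD : Minors T a b D)
    (h : (∏ ℓ ∈ T, ℓ) ^ D * (mx T b ^ mx T b * mx T a ^ mx T a) <
      (mx T b + mx T a) ^ (mx T b + mx T a)) : Decided T a b := by
  by_cases hc : ∃ ℓ ∈ T, 0 < padicValRat ℓ a * padicValRat ℓ b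
  · obtain ⟨ℓ, hℓ, h1⟩ := hc
    exact Or.inl ⟨⟨ℓ, hℓ, h1⟩, always_of_common (hT ℓ hℓ) ha hb h1⟩
  · push Not at hc
    exact Or.inr ⟨hc, never_of_minors hT ha hb hTa hTb hD h hc⟩

lemma finite_units {T : Finset ℕ} (hT : ∀ ℓ ∈ T, ℓ.Prime) (B : ℕ) :
    {c : ℚ | 0 < c ∧ TUnit T c ∧ mx T c ≤ B}.Finite := by
  set N : ℕ := (∏ ℓ ∈ T, ℓ) ^ B with hN
  refine ((Finset.range (N + 1) ×ˢ Finset.range (N + 1)).image
    fun x : ℕ × ℕ => (x.1 : ℚ) / x.2).finite_toSet.subset ?_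
  rintro c ⟨hc, hu, hm⟩
  have h1 : ∀ ℓ ∈ T, |padicValRat ℓ c| ≤ B := by
    intro ℓ hℓ
    have h2 : (padicValRat ℓ c).natAbs ≤ mx T c :=
      Finset.le_sup (f := fun ℓ => (padicValRat ℓ c).natAbs) hℓ
    rw [Int.abs_eq_natAbs]
    exact_mod_cast h2.trans hm
  obtain ⟨n1, n2⟩ := num_den_le hT hc hu h1
  rw [Finset.mem_coe, Finset.mem_image]
  refine ⟨(c.num.natAbs, c.den), ?_, ?_⟩
  · rw [Finset.mem_product, Finset.mem_range, Finset.mem_range]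
    exact ⟨by omega, by omega⟩
  · show ((c.num.natAbs : ℕ) : ℚ) / c.den = c
    rw [Nat.cast_natAbs, abs_of_pos (Rat.num_pos.2 hc)]
    exact Rat.num_div_den c

lemma eq_one_of_mx {T : Finset ℕ} (hT : ∀ ℓ ∈ T, ℓ.Prime) {c : ℚ} (hc : 0 < c) (hu : TUnit T c)
    (hm : mx T c = 0) : c = 1 := by
  have h1 : ∀ ℓ ∈ T, |padicValRat ℓ c| ≤ ((0 : ℕ) : ℤ) := by
    intro ℓ hℓ
    have h2 : (padicValRat ℓ c).natAbs ≤ mx T c :=
      Finset.le_sup (f := fun ℓ => (padicValRat ℓ c).natAbs) hℓ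
    rw [Int.abs_eq_natAbs]
    exact_mod_cast h2.trans hm.le
  obtain ⟨n1, n2⟩ := num_den_le hT hc hu h1
  rw [pow_zero] at n1 n2
  have n0 := Int.natAbs_pos.2 (Rat.num_pos.2 hc).ne'
  have d0 := c.den_pos
  have e : ((c.num.natAbs : ℕ) : ℚ) / c.den = c := by
    rw [Nat.cast_natAbs, abs_of_pos (Rat.num_pos.2 hc)]
    exact Rat.num_div_den c
  rw [← e, show c.num.natAbs = 1 by omega, show c.den = 1 by omega]
  norm_num

/-- the criterion holds for all but finitely many pairs -/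
theorem finite_not_lt {T : Finset ℕ} (hT : ∀ ℓ ∈ T, ℓ.Prime) (D : ℕ) :
    {x : ℚ × ℚ | 0 < x.1 ∧ 0 < x.2 ∧ x.1 ≠ 1 ∧ x.2 ≠ 1 ∧ TUnit T x.1 ∧ TUnit T x.2 ∧
      ¬ (∏ ℓ ∈ T, ℓ) ^ D * (mx T x.2 ^ mx T x.2 * mx T x.1 ^ mx T x.1) <
      (mx T x.2 + mx T x.1) ^ (mx T x.2 + mx T x.1)}.Finite := by
  set B : ℕ := (∏ ℓ ∈ T, ℓ) ^ D with hB
  refine ((finite_units hT B).prod (finite_units hT B)).subset ?_
  rintro ⟨a, b⟩ ⟨ha, hb, ha1, hb1, hTa, hTb, hnd⟩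
  dsimp only at ha hb ha1 hb1 hTa hTb hnd
  have h2 : 1 ≤ mx T a := by
    by_contra h
    exact ha1 (eq_one_of_mx hT ha hTa (by omega))
  have h3 : 1 ≤ mx T b := by
    by_contra h
    exact hb1 (eq_one_of_mx hT hb hTb (by omega))
  have h1 : (mx T b + mx T a).choose (mx T b) ≤ B := by
    by_contra h
    push Not at h
    refine hnd ?_
    have h8 : 0 < mx T b ^ mx T b * mx T a ^ mx T a := Nat.mul_pos (pow_pos h3 _) (pow_pos h2 _)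
    exact (Nat.mul_lt_mul_of_pos_right h h8).trans_le (choose_mul_le _ _)
  obtain ⟨h4, h5⟩ := lt_choose h3 h2
  have h6 : mx T a ≤ B := by omega
  have h7 : mx T b ≤ B := by omega
  exact ⟨⟨ha, hTa, h6⟩, ⟨hb, hTb, h7⟩⟩

/-- **Finitely many exceptions.** -/
theorem finite_exceptions {T : Finset ℕ} (hT : ∀ ℓ ∈ T, ℓ.Prime) (D : ℕ) :
    {x : ℚ × ℚ | 0 < x.1 ∧ 0 < x.2 ∧ x.1 ≠ 1 ∧ x.2 ≠ 1 ∧ TUnit T x.1 ∧ TUnit T x.2 ∧
      Minors T x.1 x.2 D ∧ ¬ Decided T x.1 x.2}.Finite := by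
  refine (finite_not_lt hT D).subset ?_
  rintro ⟨a, b⟩ ⟨ha, hb, ha1, hb1, hTa, hTb, hD, hnd⟩
  exact ⟨ha, hb, ha1, hb1, hTa, hTb, fun h => hnd (decided_of_lt hT ha hb hTa hTb hD h)⟩

end Pool.Agent.H82.ND
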