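import Pool.Agent.H82.ND.Comp

/-!
# For every group generated by the ratios freeness is decidable
-/

set_option autoImplicit false

namespace Pool.Agent.H82.ND

open Finset Pool.Agent.H49.FD Pool.Agent.H54.Free

/-- the set of all `a ^ i * b ^ j`: the group generated by `a` and `b` -/
def gen (a b : ℚ) : Set ℚ := {c : ℚ | ∃ i j : ℤ, c = a ^ i * b ^ j}

lemma left_mem_gen (a b : ℚ) : a ∈ gen a b := ⟨1, 0, by simp⟩
lemma right_mem_gen (a b : ℚ) : b ∈ gen a b := ⟨0, 1, by simp⟩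

lemma minor_det {ℓ ℓ' : ℕ} (hp : ℓ.Prime) (hp' : ℓ'.Prime) {a b a₀ b₀ : ℚ} (ha : 0 < a₀)
    (hb : 0 < b₀) {i j k l : ℤ} (h1 : a = a₀ ^ i * b₀ ^ j) (h2 : b = a₀ ^ k * b₀ ^ l) :
    padicValRat ℓ a * padicValRat ℓ' b - padicValRat ℓ' a * padicValRat ℓ b =
      (i * l - j * k) * (padicValRat ℓ a₀ * padicValRat ℓ' b₀ -
        padicValRat ℓ' a₀ * padicValRat ℓ b₀) := by
  rw [h1, h2, val_mul_zpow hp ha hb, val_mul_zpow hp ha hb, val_mul_zpow hp' ha hb,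
    val_mul_zpow hp' ha hb]
  ring

/-- the bound for the minors only depends on the group -/
lemma minors_of_gen {T : Finset ℕ} (hT : ∀ ℓ ∈ T, ℓ.Prime) {a b a₀ b₀ : ℚ} (ha : 0 < a)
    (hb : 0 < b) (ha₀ : 0 < a₀) (hb₀ : 0 < b₀) (h : gen a b = gen a₀ b₀) {D : ℕ}
    (hD : Minors T a₀ b₀ D) : Minors T a b D := by
  obtain ⟨i, j, h1⟩ : a ∈ gen a₀ b₀ := h ▸ left_mem_gen a b
  obtain ⟨k, l, h2⟩ : b ∈ gen a₀ b₀ := h ▸ right_mem_gen a b
  obtain ⟨i', j', h3⟩ : a₀ ∈ gen a b := h ▸ left_mem_gen a₀ b₀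
  obtain ⟨k', l', h4⟩ : b₀ ∈ gen a b := h ▸ right_mem_gen a₀ b₀
  intro ℓ hℓ ℓ' hℓ'
  have e1 := minor_det (hT ℓ hℓ) (hT ℓ' hℓ') ha₀ hb₀ h1 h2
  have e2 := minor_det (hT ℓ hℓ) (hT ℓ' hℓ') ha hb h3 h4
  have e3 := hD ℓ hℓ ℓ' hℓ'
  set m := padicValRat ℓ a * padicValRat ℓ' b - padicValRat ℓ' a * padicValRat ℓ b
  set m₀ := padicValRat ℓ a₀ * padicValRat ℓ' b₀ - padicValRat ℓ' a₀ * padicValRat ℓ b₀
  by_cases hd : i' * l' - j' * k' = 0
  · rw [hd, zero_mul] at e2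
    rw [e1, e2, mul_zero, abs_zero]
    exact Int.natCast_nonneg D
  · refine le_trans ?_ e3
    rw [e2, abs_mul]
    have h5 : 1 ≤ |i' * l' - j' * k'| := Int.one_le_abs hd
    have h6 : 0 ≤ |m| := abs_nonneg m
    nlinarith

lemma tunit_of_gen {T : Finset ℕ} {a₀ b₀ : ℚ} (ha₀ : 0 < a₀) (hb₀ : 0 < b₀) (hTa : TUnit T a₀)
    (hTb : TUnit T b₀) {c : ℚ} (hc : c ∈ gen a₀ b₀) : TUnit T c := by
  obtain ⟨i, j, rfl⟩ := hc
  intro ℓ hp hℓ
  rw [val_mul_zpow hp ha₀ hb₀, hTa ℓ hp hℓ, hTb ℓ hp hℓ]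
  ring

lemma exists_minors (T : Finset ℕ) (a b : ℚ) : ∃ D : ℕ, Minors T a b D := by
  refine ⟨(T ×ˢ T).sup fun x => (padicValRat x.1 a * padicValRat x.2 b -
    padicValRat x.2 a * padicValRat x.1 b).natAbs, fun ℓ hℓ ℓ' hℓ' => ?_⟩
  rw [Int.abs_eq_natAbs]
  exact_mod_cast Finset.le_sup (f := fun x : ℕ × ℕ => (padicValRat x.1 a * padicValRat x.2 b -
    padicValRat x.2 a * padicValRat x.1 b).natAbs) (Finset.mk_mem_product hℓ hℓ')

/-- **For every group there is an algorithm deciding freeness of the pairs whose ratios generate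
the group.** -/
theorem decidable_group (G : Set ℚ) : ∃ f : Inp → Bool, Computable f ∧
    ∀ p : Inp, PosInp p → gen (rat1 p) (rat2 p) = G → (f p = true ↔ FreeInp p) := by
  by_cases hG : ∃ p₀ : Inp, PosInp p₀ ∧ gen (rat1 p₀) (rat2 p₀) = G
  · obtain ⟨p₀, hp₀, rfl⟩ := hG
    have ha₀ := rat1_pos hp₀
    have hb₀ := rat2_pos hp₀
    set T : Finset ℕ := prs (rat1 p₀) ∪ prs (rat2 p₀) with hTdef
    have hT : ∀ ℓ ∈ T, ℓ.Prime := by
      intro ℓ hℓ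
      rw [hTdef, Finset.mem_union] at hℓ
      rcases hℓ with h | h
      · exact prs_prime ℓ h
      · exact prs_prime ℓ h
    have hTa : TUnit T (rat1 p₀) := tunit_of_subset ha₀ Finset.subset_union_left
    have hTb : TUnit T (rat2 p₀) := tunit_of_subset hb₀ Finset.subset_union_right
    obtain ⟨D, hD⟩ := exists_minors T (rat1 p₀) (rat2 p₀)
    obtain ⟨f, hf, hf2⟩ := ComputablePred.computable_iff.1 (decidable_class hT D)
    refine ⟨f, hf, fun p hp hg => ?_⟩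
    have h1 : (InClass T D p ∧ FreeInp p) = (f p = true) := congrFun hf2 p
    have h2 : InClass T D p := ⟨hp, tunit_of_gen ha₀ hb₀ hTa hTb (hg ▸ left_mem_gen _ _),
      tunit_of_gen ha₀ hb₀ hTa hTb (hg ▸ right_mem_gen _ _),
      minors_of_gen hT (rat1_pos hp) (rat2_pos hp) ha₀ hb₀ hg hD⟩
    rw [← h1]
    exact ⟨fun h => h.2, fun h => ⟨h2, h⟩⟩
  · refine ⟨fun _ => false, Computable.const false, fun p hp hg => ?_⟩
    exact absurd ⟨p, hp, hg⟩ hG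

end Pool.Agent.H82.ND
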