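import Pool.Agent.H82.ND.Sym

/-!
# Ratios composed of 2 and 3: tests
-/

set_option autoImplicit false

namespace Pool.Agent.H82.ND

open Finset Pool.Agent.H49.FD Pool.Agent.H54.Free

/-- the rational number `2 ^ i * 3 ^ j` -/
def r23 (i j : ℤ) : ℚ := 2 ^ i * 3 ^ j

/-- its numerator -/
def up (i j : ℤ) : ℕ := 2 ^ i.toNat * 3 ^ j.toNat

lemma up_pos (i j : ℤ) : 0 < up i j := by unfold up; positivity

private lemma zpow_eq (c : ℚ) (hc : c ≠ 0) (i : ℤ) : c ^ i = c ^ i.toNat / c ^ (-i).toNat := by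
  rcases le_total 0 i with h | h
  · obtain ⟨n, rfl⟩ := Int.eq_ofNat_of_zero_le h
    simp
  · obtain ⟨n, hn⟩ := Int.eq_ofNat_of_zero_le (neg_nonneg.2 h)
    have hi : i = -(n : ℤ) := by omega
    subst hi
    simp

lemma r23_eq (i j : ℤ) : r23 i j = (up i j : ℚ) / up (-i) (-j) := by
  unfold r23 up
  rw [zpow_eq 2 (by norm_num) i, zpow_eq 3 (by norm_num) j]
  push_cast
  rw [div_mul_div_comm]

lemma r23_pos (i j : ℤ) : 0 < r23 i j := by unfold r23; positivity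

lemma r23_neg (i j : ℤ) : (r23 i j)⁻¹ = r23 (-i) (-j) := by
  unfold r23
  rw [mul_inv, zpow_neg, zpow_neg]

lemma r23_pow (i j k l : ℤ) (S K : ℕ) :
    r23 i j ^ S * r23 k l ^ K = r23 (i * S + k * K) (j * S + l * K) := by
  unfold r23
  rw [mul_pow, mul_pow, zpow_add₀ (by norm_num : (2 : ℚ) ≠ 0), zpow_add₀ (by norm_num : (3 : ℚ) ≠ 0),
    zpow_mul, zpow_mul, zpow_mul, zpow_mul, zpow_natCast, zpow_natCast, zpow_natCast, zpow_natCast]
  ring

/-- the pigeonhole test -/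
def pigTest (i j k l : ℤ) (S K : ℕ) : Bool :=
  decide (0 < S) && decide (0 < K) &&
    decide (up (i * S + k * K) (j * S + l * K) * (S ^ S * K ^ K) < (S + K) ^ (S + K)) &&
    decide (up (-(i * S + k * K)) (-(j * S + l * K)) * (S ^ S * K ^ K) < (S + K) ^ (S + K))

lemma pig_sound {i j k l : ℤ} {S K : ℕ} (h : pigTest i j k l S K = true) :
    NeverFree (r23 i j) (r23 k l) := by
  unfold pigTest at h
  simp only [Bool.and_eq_true, decide_eq_true_eq] at h
  obtain ⟨⟨⟨h1, h2⟩, h3⟩, h4⟩ := h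
  refine never_of_entropy h1 h2 (up_pos _ _) (up_pos _ _) ?_ h3 h4
  rw [r23_pow, r23_eq]

/-- the product of the matrices of a word, `(A₁ 0; 0 A₂)` and `(B₁ 1; 0 B₂)` -/
def tri (A₁ A₂ B₁ B₂ : ℕ) : List Bool → ℕ × ℕ × ℕ
  | [] => (1, 0, 1)
  | c :: w =>
    match tri A₁ A₂ B₁ B₂ w with
    | (X, Y, Z) => if c then (B₁ * X, B₁ * Y + Z, B₂ * Z) else (A₁ * X, A₁ * Y, A₂ * Z)

lemma PM_tri (A₁ A₂ B₁ B₂ : ℕ) (w : List Bool) : PM A₁ 0 A₂ B₁ 1 B₂ w =
    !![(tri A₁ A₂ B₁ B₂ w).1, (tri A₁ A₂ B₁ B₂ w).2.1; 0, (tri A₁ A₂ B₁ B₂ w).2.2] := by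
  induction w with
  | nil => simp [PM, tri, Matrix.one_fin_two]
  | cons c w ih =>
    have e : PM A₁ 0 A₂ B₁ 1 B₂ (c :: w) =
        (if c then (!![B₁, 1; 0, B₂] : Matrix (Fin 2) (Fin 2) ℕ) else !![A₁, 0; 0, A₂]) *
          PM A₁ 0 A₂ B₁ 1 B₂ w := by
      unfold PM
      rw [List.map_cons, List.prod_cons]
    rw [e, ih]
    rcases h : tri A₁ A₂ B₁ B₂ w with ⟨X, Y, Z⟩
    cases c <;> simp [tri, h]

/-- test of a relation -/
def relTest (i j k l : ℤ) (w w' : List Bool) : Bool :=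
  decide (up i j ≠ up (-i) (-j)) && decide (up k l ≠ up (-k) (-l)) && decide (w ≠ w') &&
    decide (w ≠ []) && decide (w' ≠ []) && decide (w.count false = w'.count false) &&
    decide (w.count true = w'.count true) &&
    decide (tri (up i j) (up (-i) (-j)) (up k l) (up (-k) (-l)) w =
      tri (up i j) (up (-i) (-j)) (up k l) (up (-k) (-l)) w')

lemma rel_sound {i j k l : ℤ} {w w' : List Bool} (h : relTest i j k l w w' = true) :
    NeverFree (r23 i j) (r23 k l) := by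
  unfold relTest at h
  simp only [Bool.and_eq_true, decide_eq_true_eq] at h
  obtain ⟨⟨⟨⟨⟨⟨⟨h1, h2⟩, h3⟩, h4⟩, h5⟩, h6⟩, h7⟩, h8⟩ := h
  rw [r23_eq, r23_eq]
  refine never_of_one (y₁ := 0) (y₂ := 1) (up_pos _ _) (up_pos _ _) h1 h2 ?_ h3 h4 h5 h6 h7 ?_
  · intro h
    apply h1
    simpa using h
  · rw [PM_tri, PM_tri, h8]

/-- expansion of a run length code, starting with the letter `c` -/
def ex : Bool → List ℕ → List Bool
  | _, [] => []
  | c, n :: L => List.replicate n c ++ ex (!c) L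

/-- replacing the first letter by `f g ^ d` -/
def sb (d : ℕ) (w : List Bool) : List Bool :=
  w.flatMap fun c => if c then [true] else false :: List.replicate d true

/-- the relation of `(27 / 16, 2)` -/
def wA : List Bool × List Bool :=
  (ex true [18, 2, 1, 1, 1, 2, 1, 1, 1, 1, 5, 1], ex false [1, 17, 1, 4, 2, 4, 1, 1, 3, 1])

/-- the relation of `(1 / 27, 2)` -/
def wB : List Bool × List Bool :=
  (((ex true [1, 8, 1, 5, 1, 5, 1, 6, 1, 6, 2]).reverse.map not),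
    ((ex false [18, 1, 1, 1, 4, 2, 2, 1, 1, 1, 2, 1, 2]).reverse.map not))

/-- the exceptional pairs -/
def table : List (ℤ × ℤ × ℤ × ℤ) :=
  [(-2, 1, 0, -1), (-3, 0, 0, 1), (-3, 2, 0, -1), (-4, 3, 1, 0), (-5, 3, 1, 0), (-6, 3, 1, 0),
    (-7, 3, 1, 0), (-8, 3, 1, 0), (-9, 3, 1, 0), (0, -3, 1, 0), (-1, -3, 1, 0), (-2, -3, 1, 0),
    (-3, -3, 1, 0), (-4, -3, 1, 0)]

lemma table_never : ∀ x ∈ table, NeverFree (r23 x.1 x.2.1) (r23 x.2.2.1 x.2.2.2) := by
  intro x hx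
  simp only [table, List.mem_cons, List.not_mem_nil, or_false] at hx
  rcases hx with rfl | rfl | rfl | rfl | rfl | rfl | rfl | rfl | rfl | rfl | rfl | rfl | rfl | rfl
  · exact rel_sound (w := ex true [1, 5, 6]) (w' := ex false [1, 4, 2, 2, 1, 1, 1])
      (by decide +kernel)
  · exact rel_sound (w := ex true [1, 3, 1, 1, 1, 1, 1, 1, 4]) (w' := ex false [2, 1, 1, 4, 1, 3, 2])
      (by decide +kernel)
  · exact rel_sound (w := ex true [1, 3, 4]) (w' := ex false [1, 2, 1, 3, 1])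
      (by decide +kernel)
  · exact rel_sound (w := wA.1) (w' := wA.2) (by decide +kernel)
  · exact rel_sound (w := sb 1 wA.1) (w' := sb 1 wA.2) (by decide +kernel)
  · exact rel_sound (w := sb 2 wA.1) (w' := sb 2 wA.2) (by decide +kernel)
  · exact rel_sound (w := sb 3 wA.1) (w' := sb 3 wA.2) (by decide +kernel)
  · exact rel_sound (w := sb 4 wA.1) (w' := sb 4 wA.2) (by decide +kernel)
  · exact rel_sound (w := sb 5 wA.1) (w' := sb 5 wA.2) (by decide +kernel)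
  · exact rel_sound (w := wB.1) (w' := wB.2) (by decide +kernel)
  · exact rel_sound (w := sb 1 wB.1) (w' := sb 1 wB.2) (by decide +kernel)
  · exact rel_sound (w := sb 2 wB.1) (w' := sb 2 wB.2) (by decide +kernel)
  · exact rel_sound (w := sb 3 wB.1) (w' := sb 3 wB.2) (by decide +kernel)
  · exact rel_sound (w := sb 4 wB.1) (w' := sb 4 wB.2) (by decide +kernel)

end Pool.Agent.H82.ND
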