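import Pool.Agent.H82.ND.Tab

/-!
# Ratios composed of 2, 3 and 5: tests
-/

set_option autoImplicit false

namespace Pool.Agent.H82.ND

open Finset Pool.Agent.H49.FD Pool.Agent.H54.Free

/-- the rational number `2 ^ i * 3 ^ j * 5 ^ k` -/
def r5 (i j k : ℤ) : ℚ := 2 ^ i * 3 ^ j * 5 ^ k

/-- its numerator -/
def up5 (i j k : ℤ) : ℕ := 2 ^ i.toNat * 3 ^ j.toNat * 5 ^ k.toNat

lemma up5_pos (i j k : ℤ) : 0 < up5 i j k := by unfold up5; positivity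

private lemma zpow_eq5 (c : ℚ) (i : ℤ) : c ^ i = c ^ i.toNat / c ^ (-i).toNat := by
  rcases le_total 0 i with h | h
  · obtain ⟨n, rfl⟩ := Int.eq_ofNat_of_zero_le h
    simp
  · obtain ⟨n, hn⟩ := Int.eq_ofNat_of_zero_le (neg_nonneg.2 h)
    have hi : i = -(n : ℤ) := by omega
    subst hi
    simp

lemma r5_eq (i j k : ℤ) : r5 i j k = (up5 i j k : ℚ) / up5 (-i) (-j) (-k) := by
  unfold r5 up5
  rw [zpow_eq5 2 i, zpow_eq5 3 j, zpow_eq5 5 k]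
  push_cast
  rw [div_mul_div_comm, div_mul_div_comm]

lemma r5_pos (i j k : ℤ) : 0 < r5 i j k := by unfold r5; positivity

lemma r5_neg (i j k : ℤ) : (r5 i j k)⁻¹ = r5 (-i) (-j) (-k) := by
  unfold r5
  rw [mul_inv, mul_inv, zpow_neg, zpow_neg, zpow_neg]

lemma r5_pow (i j k i' j' k' : ℤ) (S K : ℕ) :
    r5 i j k ^ S * r5 i' j' k' ^ K = r5 (i * S + i' * K) (j * S + j' * K) (k * S + k' * K) := by
  unfold r5
  rw [mul_pow, mul_pow, mul_pow, mul_pow, zpow_add₀ (by norm_num : (2 : ℚ) ≠ 0),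
    zpow_add₀ (by norm_num : (3 : ℚ) ≠ 0), zpow_add₀ (by norm_num : (5 : ℚ) ≠ 0),
    zpow_mul, zpow_mul, zpow_mul, zpow_mul, zpow_mul, zpow_mul, zpow_natCast, zpow_natCast,
    zpow_natCast, zpow_natCast, zpow_natCast, zpow_natCast]
  ring

/-- the pigeonhole test -/
def pig5 (i j k i' j' k' : ℤ) (S K : ℕ) : Bool :=
  decide (0 < S) && decide (0 < K) &&
    decide (up5 (i * S + i' * K) (j * S + j' * K) (k * S + k' * K) * (S ^ S * K ^ K) <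
      (S + K) ^ (S + K)) &&
    decide (up5 (-(i * S + i' * K)) (-(j * S + j' * K)) (-(k * S + k' * K)) * (S ^ S * K ^ K) <
      (S + K) ^ (S + K))

lemma pig5_sound {i j k i' j' k' : ℤ} {S K : ℕ} (h : pig5 i j k i' j' k' S K = true) :
    NeverFree (r5 i j k) (r5 i' j' k') := by
  unfold pig5 at h
  simp only [Bool.and_eq_true, decide_eq_true_eq] at h
  obtain ⟨⟨⟨h1, h2⟩, h3⟩, h4⟩ := h
  refine never_of_entropy h1 h2 (up5_pos _ _ _) (up5_pos _ _ _) ?_ h3 h4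
  rw [r5_pow, r5_eq]

/-- test of a relation -/
def rel5 (i j k i' j' k' : ℤ) (w w' : List Bool) : Bool :=
  decide (up5 i j k ≠ up5 (-i) (-j) (-k)) && decide (up5 i' j' k' ≠ up5 (-i') (-j') (-k')) &&
    decide (w ≠ w') &&
    decide (w ≠ []) && decide (w' ≠ []) && decide (w.count false = w'.count false) &&
    decide (w.count true = w'.count true) &&
    decide (tri (up5 i j k) (up5 (-i) (-j) (-k)) (up5 i' j' k') (up5 (-i') (-j') (-k')) w =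
      tri (up5 i j k) (up5 (-i) (-j) (-k)) (up5 i' j' k') (up5 (-i') (-j') (-k')) w')

lemma rel5_sound {i j k i' j' k' : ℤ} {w w' : List Bool} (h : rel5 i j k i' j' k' w w' = true) :
    NeverFree (r5 i j k) (r5 i' j' k') := by
  unfold rel5 at h
  simp only [Bool.and_eq_true, decide_eq_true_eq] at h
  obtain ⟨⟨⟨⟨⟨⟨⟨h1, h2⟩, h3⟩, h4⟩, h5⟩, h6⟩, h7⟩, h8⟩ := h
  rw [r5_eq, r5_eq]
  refine never_of_one (y₁ := 0) (y₂ := 1) (up5_pos _ _ _) (up5_pos _ _ _) h1 h2 ?_ h3 h4 h5 h6 h7 ?_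
  · intro h
    apply h1
    simpa using h
  · rw [PM_tri, PM_tri, h8]

/-- the exceptional pairs with a relation for each -/
def table5 : List ((ℤ × ℤ × ℤ) × (ℤ × ℤ × ℤ) × List Bool × List Bool) :=
  [
    ((-5, 1, 1), (1, 0, 0), ex true [4, 1, 1, 1, 1], ex false [1, 6, 1]),
    ((-4, 1, 1), (1, 0, 0), ex true [4, 2, 1], ex false [1, 5, 1]),
    ((-4, 3, -1), (1, -1, 0), ex true [1, 5, 8, 1, 2, 1, 8, 1, 7, 2, 4, 1, 4, 1, 1, 1], ex false [1, 13, 1, 2, 1, 4, 1, 3, 2, 2, 1, 1, 2, 3, 2, 5, 2, 2]),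
    ((-3, 1, 1), (1, 0, 0), ex true [8, 2, 2, 1, 1, 4, 1], ex false [1, 1, 2, 1, 1, 1, 1, 3, 1, 6, 1]),
    ((-2, -1, 1), (1, 1, 0), ex true [5, 1, 1, 3, 2, 3, 1, 1, 1], ex false [1, 3, 1, 1, 3, 1, 1, 3, 1, 2, 1]),
    ((-2, 3, 1), (1, -1, 0), ex true [2, 1, 1, 1, 2, 1, 2, 1, 5, 1, 2], ex false [2, 3, 1, 1, 1, 10, 1]),
    ((-1, -2, 1), (1, 1, 0), ex true [5, 5, 1, 2, 3, 1], ex false [1, 3, 1, 3, 1, 1, 4, 1, 1, 1]),
    ((-1, -1, -1), (0, 1, 0), ex true [2, 3, 3, 1, 4], ex false [1, 2, 1, 6, 1, 1, 1]),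
    ((-1, -1, -1), (1, 0, 0), ex true [1, 2, 4], ex false [1, 5, 1]),
    ((-1, -1, 0), (0, 0, 1), ex true [1, 1, 1, 3, 2, 1, 1, 2, 1, 1, 2], ex false [5, 3, 1, 5, 2]),
    ((-1, -1, 0), (1, 0, 1), ex true [1, 4, 1, 1, 1, 3, 2, 2, 3], ex false [5, 1, 1, 3, 1, 1, 1, 1, 1, 2, 1]),
    ((-1, -1, 0), (1, 1, -1), ex true [1, 1, 1, 1, 1, 3, 1, 1, 1], ex false [1, 5, 5]),
    ((-1, -1, 1), (0, 0, -1), ex true [1, 10, 2, 2, 1, 1, 5, 1, 5, 2], ex false [1, 3, 1, 1, 2, 2, 1, 1, 1, 1, 2, 1, 2, 1, 3, 1, 2, 1, 1, 2]),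
    ((-1, -1, 1), (0, 1, 0), ex true [4, 1, 1, 6, 2], ex false [1, 2, 3, 2, 1, 1, 1, 2, 1]),
    ((-1, -1, 1), (1, 0, 0), ex true [4, 1, 3, 4, 1, 1, 2], ex false [2, 1, 1, 2, 1, 3, 1, 4, 1]),
    ((-1, 0, -1), (0, -1, 1), ex true [1, 1, 3, 4, 2], ex false [1, 5, 1, 1, 3]),
    ((-1, 0, -1), (0, 1, 0), ex true [1, 1, 1, 3, 1, 1, 2, 1, 4], ex false [3, 6, 1, 3, 2]),
    ((-1, 0, 0), (0, -1, 1), ex true [1, 2, 1, 7, 1, 1, 1, 1, 4, 1, 2], ex false [4, 1, 1, 2, 1, 2, 1, 4, 3, 1, 2]),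
    ((-1, 0, 0), (0, 1, 1), ex true [1, 8, 2], ex false [4, 1, 3, 2, 1]),
    ((-1, 0, 1), (0, -1, -1), ex true [1, 3, 1, 2, 1, 3, 2], ex false [1, 1, 1, 2, 2, 1, 1, 1, 3]),
    ((-1, 0, 1), (0, -1, 0), ex true [4, 2, 1, 3, 2, 3, 1, 2, 2], ex false [1, 2, 1, 2, 1, 1, 1, 3, 1, 1, 2, 1, 3]),
    ((-1, 0, 1), (1, -1, 0), ex true [2, 1, 1, 1, 1, 1, 1, 5, 1], ex false [4, 1, 1, 5, 3]),
    ((-1, 1, 0), (0, -1, -1), ex true [1, 5, 1, 1, 1, 7, 1, 2, 1, 1, 2, 1, 3, 2, 2], ex false [1, 2, 3, 3, 2, 1, 3, 4, 1, 1, 7, 1, 2]),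
    ((-1, 1, 0), (0, -1, 1), ex true [2, 1, 1, 2, 2, 2, 1, 1, 1, 1, 1, 2, 2, 6, 2], ex false [10, 1, 2, 1, 2, 10, 1]),
    ((-1, 1, 0), (0, 0, -1), ex true [2, 1, 1, 9, 1, 1, 1, 1, 1, 2, 1, 1, 1, 1, 2], ex false [1, 2, 1, 2, 2, 1, 4, 1, 1, 2, 2, 1, 1, 1, 4]),
    ((-1, 1, 0), (1, -2, -1), ex true [1, 9, 2, 2, 2, 1, 1], ex false [2, 1, 4, 1, 1, 1, 1, 1, 2, 2, 2]),
    ((-1, 1, 0), (1, -1, -1), ex true [1, 4, 1, 1, 1, 1, 1, 2, 1, 1, 1], ex false [1, 1, 1, 3, 1, 1, 2, 1, 4]),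
    ((-1, 2, -1), (0, -1, 0), ex true [1, 3, 1, 2, 2, 1, 4], ex false [1, 3, 2, 3, 1, 2, 2]),
    ((-1, 3, -1), (0, -1, 0), ex true [2, 3, 3, 1, 4], ex false [1, 2, 1, 6, 1, 1, 1])
  ]

lemma table5_check : table5.all (fun x => rel5 x.1.1 x.1.2.1 x.1.2.2 x.2.1.1 x.2.1.2.1 x.2.1.2.2
    x.2.2.1 x.2.2.2) = true := by
  decide +kernel

/-- the exceptional pairs -/
def keys5 : List ((ℤ × ℤ × ℤ) × (ℤ × ℤ × ℤ)) := table5.map fun x => (x.1, x.2.1)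

lemma keys5_never {a b : ℤ × ℤ × ℤ} (h : (a, b) ∈ keys5) :
    NeverFree (r5 a.1 a.2.1 a.2.2) (r5 b.1 b.2.1 b.2.2) := by
  unfold keys5 at h
  rw [List.mem_map] at h
  obtain ⟨x, hx, hxab⟩ := h
  have h1 := table5_check
  rw [List.all_eq_true] at h1
  have h2 := rel5_sound (h1 x hx)
  have e1 : x.1 = a := congrArg Prod.fst hxab
  have e2 : x.2.1 = b := congrArg Prod.snd hxab
  rw [e1, e2] at h2
  exact h2

/-- the certificates -/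
def chk5 (i j k i' j' k' : ℤ) : Bool :=
  pig5 i j k i' j' k' i'.natAbs i.natAbs || pig5 i j k i' j' k' j'.natAbs j.natAbs ||
    pig5 i j k i' j' k' k'.natAbs k.natAbs || pig5 i j k i' j' k' 2 3 ||
    pig5 i j k i' j' k' 3 2 || pig5 i j k i' j' k' 2 11 || pig5 i j k i' j' k' 1 2 ||
    pig5 i j k i' j' k' 2 1 || pig5 i j k i' j' k' 1 4 || pig5 i j k i' j' k' 4 1 ||
    pig5 i j k i' j' k' 6 1 ||
    decide (((i, j, k), (i', j', k')) ∈ keys5) || decide (((i', j', k'), (i, j, k)) ∈ keys5) ||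
    decide (((-i, -j, -k), (-i', -j', -k')) ∈ keys5) ||
    decide (((-i', -j', -k'), (-i, -j, -k)) ∈ keys5)

lemma chk5_sound {i j k i' j' k' : ℤ} (h : chk5 i j k i' j' k' = true) :
    NeverFree (r5 i j k) (r5 i' j' k') := by
  unfold chk5 at h
  simp only [Bool.or_eq_true, decide_eq_true_eq] at h
  rcases h with ((((((((((((((h | h) | h) | h) | h) | h) | h) | h) | h) | h) | h) | h) | h) | h) | h)
  · exact pig5_sound h
  · exact pig5_sound h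
  · exact pig5_sound h
  · exact pig5_sound h
  · exact pig5_sound h
  · exact pig5_sound h
  · exact pig5_sound h
  · exact pig5_sound h
  · exact pig5_sound h
  · exact pig5_sound h
  · exact pig5_sound h
  · exact keys5_never h
  · exact never_swap (keys5_never h)
  · have h1 := never_inv (keys5_never h)
    simp only [r5_neg, neg_neg] at h1
    exact h1
  · have h1 := never_swap (never_inv (keys5_never h))
    simp only [r5_neg, neg_neg] at h1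
    exact h1

end Pool.Agent.H82.ND
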