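import Pool.Agent.H82.ND.Cls

/-!
# Ratios composed of 2 and 3: complete answer for minors up to 3, conclusion
-/

set_option autoImplicit false

namespace Pool.Agent.H82.ND

open Finset Pool.Agent.H49.FD Pool.Agent.H54.Free

lemma up_zero_le (x : ℤ) (D : ℕ) (h : x.natAbs = D) : up 0 x ≤ 3 ^ D := by
  unfold up
  rw [Int.toNat_zero, pow_zero, one_mul]
  exact Nat.pow_le_pow_right (by norm_num) (by omega)

lemma up_le_two (x : ℤ) (D : ℕ) (h : x.natAbs = D) : up x 0 ≤ 2 ^ D := by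
  unfold up
  rw [Int.toNat_zero, pow_zero, mul_one]
  exact Nat.pow_le_pow_right (by norm_num) (by omega)

lemma never2 {i j k l : ℤ} (hik : i * k < 0) (h : 3 ^ (i * l - j * k).natAbs *
    (k.natAbs ^ k.natAbs * i.natAbs ^ i.natAbs) <
      (k.natAbs + i.natAbs) ^ (k.natAbs + i.natAbs)) :
    NeverFree (r23 i j) (r23 k l) := by
  have hi : i ≠ 0 := by rintro rfl; simp at hik
  have hk : k ≠ 0 := by rintro rfl; simp at hik
  refine pig_sound (S := k.natAbs) (K := i.natAbs) ?_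
  have key : i * (k.natAbs : ℤ) + k * (i.natAbs : ℤ) = 0 ∧
      (j * (k.natAbs : ℤ) + l * (i.natAbs : ℤ)).natAbs = (i * l - j * k).natAbs := by
    rcases lt_or_gt_of_ne hi with h1 | h1
    · have h2 : 0 < k := by nlinarith
      have e1 : (i.natAbs : ℤ) = -i := by omega
      have e2 : (k.natAbs : ℤ) = k := by omega
      rw [e1, e2]
      refine ⟨by ring, ?_⟩
      rw [← Int.natAbs_neg]
      congr 1
      ring
    · have h2 : k < 0 := by nlinarith
      have e1 : (i.natAbs : ℤ) = i := by omega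
      have e2 : (k.natAbs : ℤ) = -k := by omega
      rw [e1, e2]
      refine ⟨by ring, ?_⟩
      congr 1
      ring
  unfold pigTest
  simp only [Bool.and_eq_true, decide_eq_true_eq]
  refine ⟨⟨⟨Int.natAbs_pos.2 hk, Int.natAbs_pos.2 hi⟩, ?_⟩, ?_⟩
  · rw [key.1]
    exact (Nat.mul_le_mul_right _ (up_zero_le _ _ key.2)).trans_lt h
  · rw [key.1, neg_zero]
    exact (Nat.mul_le_mul_right _ (up_zero_le _ _ (by rw [Int.natAbs_neg, key.2]))).trans_lt h

lemma never3 {i j k l : ℤ} (hjl : j * l < 0) (h : 2 ^ (i * l - j * k).natAbs *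
    (l.natAbs ^ l.natAbs * j.natAbs ^ j.natAbs) <
      (l.natAbs + j.natAbs) ^ (l.natAbs + j.natAbs)) :
    NeverFree (r23 i j) (r23 k l) := by
  have hj : j ≠ 0 := by rintro rfl; simp at hjl
  have hl : l ≠ 0 := by rintro rfl; simp at hjl
  refine pig_sound (S := l.natAbs) (K := j.natAbs) ?_
  have key : j * (l.natAbs : ℤ) + l * (j.natAbs : ℤ) = 0 ∧
      (i * (l.natAbs : ℤ) + k * (j.natAbs : ℤ)).natAbs = (i * l - j * k).natAbs := by
    rcases lt_or_gt_of_ne hj with h1 | h1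
    · have h2 : 0 < l := by nlinarith
      have e1 : (j.natAbs : ℤ) = -j := by omega
      have e2 : (l.natAbs : ℤ) = l := by omega
      rw [e1, e2]
      refine ⟨by ring, ?_⟩
      congr 1
      ring
    · have h2 : l < 0 := by nlinarith
      have e1 : (j.natAbs : ℤ) = j := by omega
      have e2 : (l.natAbs : ℤ) = -l := by omega
      rw [e1, e2]
      refine ⟨by ring, ?_⟩
      rw [← Int.natAbs_neg]
      congr 1
      ring
  unfold pigTest
  simp only [Bool.and_eq_true, decide_eq_true_eq]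
  refine ⟨⟨⟨Int.natAbs_pos.2 hl, Int.natAbs_pos.2 hj⟩, ?_⟩, ?_⟩
  · rw [key.1]
    exact (Nat.mul_le_mul_right _ (up_le_two _ _ key.2)).trans_lt h
  · rw [key.1, neg_zero]
    exact (Nat.mul_le_mul_right _ (up_le_two _ _ (by rw [Int.natAbs_neg, key.2]))).trans_lt h

lemma choose_le_of {x y N : ℕ} (hx : 1 ≤ x) (hy : 1 ≤ y)
    (h : (x + y) ^ (x + y) ≤ N * (x ^ x * y ^ y)) : (x + y).choose x ≤ N := by
  have h1 := (choose_mul_le x y).trans h
  exact Nat.le_of_mul_le_mul_right h1 (Nat.mul_pos (pow_pos hx _) (pow_pos hy _))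

lemma tableN (N B c : ℕ) (h : (List.range N).all (fun x => (List.range N).all (fun y =>
      decide (x = 0) || decide (y = 0) || decide (c * (x ^ x * y ^ y) < (x + y) ^ (x + y)) ||
        (decide (x ≤ B) && decide (y ≤ B)))) = true) {x y : ℕ} (hx : x < N) (hy : y < N)
    (hx1 : 1 ≤ x) (hy1 : 1 ≤ y) (hxy : (x + y) ^ (x + y) ≤ c * (x ^ x * y ^ y)) :
    x ≤ B ∧ y ≤ B := by
  simp only [List.all_eq_true, List.mem_range] at h
  have h1 := h x hx y hy
  simp only [Bool.or_eq_true, Bool.and_eq_true, decide_eq_true_eq] at h1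
  rcases h1 with ((h1 | h1) | h1) | h1
  · omega
  · omega
  · omega
  · exact h1

lemma small27 {x y : ℕ} (hx : 1 ≤ x) (hy : 1 ≤ y)
    (h : (x + y) ^ (x + y) ≤ 27 * (x ^ x * y ^ y)) : x ≤ 9 ∧ y ≤ 9 := by
  have h1 := choose_le_of hx hy h
  have h2 := lt_choose hx hy
  exact tableN 27 9 27 (by decide +kernel) (by omega) (by omega) hx hy h

lemma small8 {x y : ℕ} (hx : 1 ≤ x) (hy : 1 ≤ y)
    (h : (x + y) ^ (x + y) ≤ 8 * (x ^ x * y ^ y)) : x ≤ 3 ∧ y ≤ 3 := by
  have h1 := choose_le_of hx hy h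
  have h2 := lt_choose hx hy
  exact tableN 8 3 8 (by decide +kernel) (by omega) (by omega) hx hy h

lemma le_of_mul_natAbs {x y : ℤ} {D : ℕ} (hx : x ≠ 0) (hy : y ≠ 0) (h : (x * y).natAbs ≤ D) :
    x.natAbs ≤ D ∧ y.natAbs ≤ D := by
  rw [Int.natAbs_mul] at h
  have h1 := Int.natAbs_pos.2 hx
  have h2 := Int.natAbs_pos.2 hy
  exact ⟨(Nat.le_mul_of_pos_right _ h2).trans h, (Nat.le_mul_of_pos_left _ h1).trans h⟩

lemma pow_lt {x y : ℕ} (hx : 1 ≤ x) (hy : 1 ≤ y) : x ^ x * y ^ y < (x + y) ^ (x + y) := by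
  have h1 := choose_mul_le x y
  have h2 := lt_choose hx hy
  have h3 : 0 < x ^ x * y ^ y := Nat.mul_pos (pow_pos hx _) (pow_pos hy _)
  calc x ^ x * y ^ y < (x + y).choose x * (x ^ x * y ^ y) := by
        have : 2 * (x ^ x * y ^ y) ≤ (x + y).choose x * (x ^ x * y ^ y) :=
          Nat.mul_le_mul_right _ (by omega)
        omega
    _ ≤ _ := h1

lemma val2 (i j : ℤ) : padicValRat 2 (r23 i j) = i := by
  have : Fact (Nat.Prime 2) := ⟨Nat.prime_two⟩
  unfold r23
  rw [padicValRat.mul (by positivity) (by positivity), padicValRat.zpow, padicValRat.zpow]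
  have h1 : padicValRat 2 (2 : ℚ) = 1 := by
    have := padicValRat.self (p := 2) (by norm_num)
    simpa using this
  have h2 : padicValRat 2 (3 : ℚ) = 0 := by
    have h3 : padicValRat 2 ((3 : ℕ) : ℚ) = padicValNat 2 3 := padicValRat.of_nat
    rw [padicValNat.eq_zero_of_not_dvd (by norm_num)] at h3
    simpa using h3
  rw [h1, h2]
  ring

lemma val3 (i j : ℤ) : padicValRat 3 (r23 i j) = j := by
  have : Fact (Nat.Prime 3) := ⟨Nat.prime_three⟩
  unfold r23
  rw [padicValRat.mul (by positivity) (by positivity), padicValRat.zpow, padicValRat.zpow]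
  have h1 : padicValRat 3 (3 : ℚ) = 1 := by
    have := padicValRat.self (p := 3) (by norm_num)
    simpa using this
  have h2 : padicValRat 3 (2 : ℚ) = 0 := by
    have h3 : padicValRat 3 ((2 : ℕ) : ℚ) = padicValNat 3 2 := padicValRat.of_nat
    rw [padicValNat.eq_zero_of_not_dvd (by norm_num)] at h3
    simpa using h3
  rw [h1, h2]
  ring

/-- the classical sufficient conditions for freeness, for `a = 2 ^ i * 3 ^ j`, `b = 2 ^ k * 3 ^ l` -/
def Classical23 (i j k l : ℤ) : Prop :=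
  0 < i * k ∨ 0 < j * l ∨ r23 i j + r23 k l ≤ 1 ∨ 1 / r23 i j + 1 / r23 k l ≤ 1

theorem always23 {i j k l : ℤ} (h : Classical23 i j k l) : AlwaysFree (r23 i j) (r23 k l) := by
  rcases h with h | h | h | h
  · exact always_of_common Nat.prime_two (r23_pos _ _) (r23_pos _ _) (by rw [val2, val2]; exact h)
  · exact always_of_common Nat.prime_three (r23_pos _ _) (r23_pos _ _) (by rw [val3, val3]; exact h)
  · exact always_outside (r23_pos _ _) (r23_pos _ _) (Or.inl h)
  · exact always_outside (r23_pos _ _) (r23_pos _ _) (Or.inr h)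

theorem never23 {i j k l : ℤ} (hD : (i * l - j * k).natAbs ≤ 3) (ha : (i, j) ≠ (0, 0))
    (hb : (k, l) ≠ (0, 0)) (hc : ¬ Classical23 i j k l) : NeverFree (r23 i j) (r23 k l) := by
  unfold Classical23 at hc
  push Not at hc
  obtain ⟨h1, h2, h3, h4⟩ := hc
  set D := (i * l - j * k).natAbs with hDdef
  by_cases c2 : i * k < 0 ∧ 3 ^ D * (k.natAbs ^ k.natAbs * i.natAbs ^ i.natAbs) <
      (k.natAbs + i.natAbs) ^ (k.natAbs + i.natAbs)
  · exact never2 c2.1 c2.2
  by_cases c3 : j * l < 0 ∧ 2 ^ D * (l.natAbs ^ l.natAbs * j.natAbs ^ j.natAbs) <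
      (l.natAbs + j.natAbs) ^ (l.natAbs + j.natAbs)
  · exact never3 c3.1 c3.2
  have s2 : i ≠ 0 → k ≠ 0 → i.natAbs ≤ 9 ∧ k.natAbs ≤ 9 := by
    intro hi hk
    have h5 : i * k < 0 := lt_of_le_of_ne h1 (mul_ne_zero hi hk)
    have h6 : (k.natAbs + i.natAbs) ^ (k.natAbs + i.natAbs) ≤
        3 ^ D * (k.natAbs ^ k.natAbs * i.natAbs ^ i.natAbs) := by
      by_contra h
      push Not at h
      exact c2 ⟨h5, h⟩
    have h7 : (3 : ℕ) ^ D ≤ 27 := by
      calc (3 : ℕ) ^ D ≤ 3 ^ 3 := Nat.pow_le_pow_right (by norm_num) hD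
        _ = 27 := by norm_num
    have h8 := small27 (Int.natAbs_pos.2 hk) (Int.natAbs_pos.2 hi)
      (h6.trans (Nat.mul_le_mul_right _ h7))
    exact ⟨h8.2, h8.1⟩
  have s3 : j ≠ 0 → l ≠ 0 → j.natAbs ≤ 3 ∧ l.natAbs ≤ 3 := by
    intro hj hl
    have h5 : j * l < 0 := lt_of_le_of_ne h2 (mul_ne_zero hj hl)
    have h6 : (l.natAbs + j.natAbs) ^ (l.natAbs + j.natAbs) ≤
        2 ^ D * (l.natAbs ^ l.natAbs * j.natAbs ^ j.natAbs) := by
      by_contra h
      push Not at h
      exact c3 ⟨h5, h⟩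
    have h7 : (2 : ℕ) ^ D ≤ 8 := by
      calc (2 : ℕ) ^ D ≤ 2 ^ 3 := Nat.pow_le_pow_right (by norm_num) hD
        _ = 8 := by norm_num
    have h8 := small8 (Int.natAbs_pos.2 hl) (Int.natAbs_pos.2 hj)
      (h6.trans (Nat.mul_le_mul_right _ h7))
    exact ⟨h8.2, h8.1⟩
  have hij : ¬ (i = 0 ∧ j = 0) := fun h => ha (by rw [h.1, h.2])
  have hkl : ¬ (k = 0 ∧ l = 0) := fun h => hb (by rw [h.1, h.2])
  rcases Nat.eq_zero_or_pos D with hD0 | hD0
  · -- dependent exponents
    exfalso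
    have h0 : i * l - j * k = 0 := Int.natAbs_eq_zero.1 hD0
    by_cases hik : i ≠ 0 ∧ k ≠ 0
    · refine c2 ⟨lt_of_le_of_ne h1 (mul_ne_zero hik.1 hik.2), ?_⟩
      rw [hD0, pow_zero, one_mul]
      exact pow_lt (Int.natAbs_pos.2 hik.2) (Int.natAbs_pos.2 hik.1)
    · have hjl : j ≠ 0 ∧ l ≠ 0 := by
        by_cases hi : i = 0
        · have hj : j ≠ 0 := fun h => hij ⟨hi, h⟩
          have hk : k = 0 := by
            rw [hi] at h0
            have : j * k = 0 := by linarith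
            exact (mul_eq_zero.1 this).resolve_left hj
          exact ⟨hj, fun h => hkl ⟨hk, h⟩⟩
        · have hk : k = 0 := by
            by_contra h
            exact hik ⟨hi, h⟩
          have hl : l ≠ 0 := fun h => hkl ⟨hk, h⟩
          exfalso
          rw [hk] at h0
          have : i * l = 0 := by linarith
          exact (mul_ne_zero hi hl) this
      refine c3 ⟨lt_of_le_of_ne h2 (mul_ne_zero hjl.1 hjl.2), ?_⟩
      rw [hD0, pow_zero, one_mul]
      exact pow_lt (Int.natAbs_pos.2 hjl.2) (Int.natAbs_pos.2 hjl.1)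
  · have hbox : i.natAbs ≤ 9 ∧ j.natAbs ≤ 3 ∧ k.natAbs ≤ 9 ∧ l.natAbs ≤ 3 := by
      have hne : i * l - j * k ≠ 0 := fun h => by rw [hDdef, h] at hD0; simp at hD0
      by_cases hi : i = 0
      · have e : D = (j * k).natAbs := by rw [hDdef, hi, zero_mul, zero_sub, Int.natAbs_neg]
        have hj : j ≠ 0 := by rintro rfl; apply hne; rw [hi]; ring
        have hk : k ≠ 0 := by rintro rfl; apply hne; rw [hi]; ring
        obtain ⟨a1, a2⟩ := le_of_mul_natAbs hj hk (e ▸ hD)
        refine ⟨by rw [hi]; simp, a1, by omega, ?_⟩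
        by_cases hl : l = 0
        · rw [hl]; simp
        · exact (s3 hj hl).2
      by_cases hk : k = 0
      · have e : D = (i * l).natAbs := by rw [hDdef, hk, mul_zero, sub_zero]
        have hl : l ≠ 0 := by rintro rfl; apply hne; rw [hk]; ring
        obtain ⟨a1, a2⟩ := le_of_mul_natAbs hi hl (e ▸ hD)
        refine ⟨by omega, ?_, by rw [hk]; simp, a2⟩
        by_cases hj : j = 0
        · rw [hj]; simp
        · exact (s3 hj hl).1
      obtain ⟨b1, b2⟩ := s2 hi hk
      by_cases hj : j = 0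
      · have e : D = (i * l).natAbs := by rw [hDdef, hj, zero_mul, sub_zero]
        have hl : l ≠ 0 := by rintro rfl; apply hne; rw [hj]; ring
        obtain ⟨a1, a2⟩ := le_of_mul_natAbs hi hl (e ▸ hD)
        exact ⟨b1, by rw [hj]; simp, b2, a2⟩
      by_cases hl : l = 0
      · have e : D = (j * k).natAbs := by rw [hDdef, hl, mul_zero, zero_sub, Int.natAbs_neg]
        obtain ⟨a1, a2⟩ := le_of_mul_natAbs hj hk (e ▸ hD)
        exact ⟨b1, a1, b2, by rw [hl]; simp⟩
      obtain ⟨b3, b4⟩ := s3 hj hl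
      exact ⟨b1, b3, b2, b4⟩
    refine box hbox.1 hbox.2.1 hbox.2.2.1 hbox.2.2.2 ?_
    unfold scope
    simp only [Bool.and_eq_true, decide_eq_true_eq]
    have pA : (0 : ℚ) < up (-i) (-j) := by exact_mod_cast up_pos _ _
    have pB : (0 : ℚ) < up (-k) (-l) := by exact_mod_cast up_pos _ _
    have pA' : (0 : ℚ) < up i j := by exact_mod_cast up_pos _ _
    have pB' : (0 : ℚ) < up k l := by exact_mod_cast up_pos _ _
    refine ⟨⟨⟨⟨⟨h1, h2⟩, hD0⟩, hD⟩, ?_⟩, ?_⟩
    · rw [r23_eq i j, r23_eq k l, div_add_div _ _ pA.ne' pB.ne', one_lt_div (mul_pos pA pB)] at h3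
      have h5 : (up (-i) (-j) : ℚ) * up (-k) (-l) < up i j * up (-k) (-l) + up k l * up (-i) (-j) := by
        linarith
      exact_mod_cast h5
    · rw [r23_eq i j, r23_eq k l, one_div_div, one_div_div, div_add_div _ _ pA'.ne' pB'.ne',
        one_lt_div (mul_pos pA' pB')] at h4
      have h5 : (up i j : ℚ) * up k l < up (-i) (-j) * up k l + up (-k) (-l) * up i j := by
        linarith
      exact_mod_cast h5

end Pool.Agent.H82.ND
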