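import Pool.Agent.H82.ND.Box5
import Pool.Agent.H82.ND.Two3
import Pool.Agent.H82.ND.Fini
import Pool.Agent.H54.Free.Stair

/-!
# Ratios composed of 2, 3 and 5, minors at most one: complete answer
-/

set_option autoImplicit false

namespace Pool.Agent.H82.ND

open Finset Pool.Agent.H49.FD Pool.Agent.H54.Free

lemma val_prime {ℓ q : ℕ} (hℓ : ℓ.Prime) (hq : q.Prime) :
    padicValRat ℓ (q : ℚ) = if ℓ = q then 1 else 0 := by
  have : Fact ℓ.Prime := ⟨hℓ⟩
  rw [padicValRat.of_nat]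
  split_ifs with h
  · subst h
    rw [padicValNat.self hℓ.one_lt]
    rfl
  · rw [padicValNat.eq_zero_of_not_dvd fun hd => h ((Nat.prime_dvd_prime_iff_eq hℓ hq).1 hd)]
    rfl

lemma val_r5 {ℓ : ℕ} (hℓ : ℓ.Prime) (i j k : ℤ) : padicValRat ℓ (r5 i j k) =
    i * (if ℓ = 2 then 1 else 0) + j * (if ℓ = 3 then 1 else 0) + k * (if ℓ = 5 then 1 else 0) := by
  have : Fact ℓ.Prime := ⟨hℓ⟩
  have h2 := val_prime hℓ Nat.prime_two
  have h3 := val_prime hℓ Nat.prime_three
  have h5 := val_prime hℓ Nat.prime_five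
  have e2 : ((2 : ℕ) : ℚ) = 2 := by norm_num
  have e3 : ((3 : ℕ) : ℚ) = 3 := by norm_num
  have e5 : ((5 : ℕ) : ℚ) = 5 := by norm_num
  rw [e2] at h2
  rw [e3] at h3
  rw [e5] at h5
  unfold r5
  rw [padicValRat.mul (by positivity) (by positivity), padicValRat.mul (by positivity) (by positivity),
    padicValRat.zpow, padicValRat.zpow, padicValRat.zpow, h2, h3, h5]

lemma val5_2 (i j k : ℤ) : padicValRat 2 (r5 i j k) = i := by
  rw [val_r5 Nat.prime_two]; simp

lemma val5_3 (i j k : ℤ) : padicValRat 3 (r5 i j k) = j := by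
  rw [val_r5 Nat.prime_three]; simp

lemma val5_5 (i j k : ℤ) : padicValRat 5 (r5 i j k) = k := by
  rw [val_r5 Nat.prime_five]; simp

/-- the primes 2, 3, 5 -/
def T5 : Finset ℕ := {2, 3, 5}

lemma T5_prime : ∀ ℓ ∈ T5, ℓ.Prime := by
  intro ℓ hℓ
  simp only [T5, Finset.mem_insert, Finset.mem_singleton] at hℓ
  rcases hℓ with rfl | rfl | rfl
  · exact Nat.prime_two
  · exact Nat.prime_three
  · exact Nat.prime_five

lemma T5_prod : ∏ ℓ ∈ T5, ℓ = 30 := by decide

lemma tunit5 (i j k : ℤ) : TUnit T5 (r5 i j k) := by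
  intro ℓ hp hℓ
  simp only [T5, Finset.mem_insert, Finset.mem_singleton, not_or] at hℓ
  rw [val_r5 hp, if_neg hℓ.1, if_neg hℓ.2.1, if_neg hℓ.2.2]
  ring

/-- the largest exponent -/
def mx5 (i j k : ℤ) : ℕ := max i.natAbs (max j.natAbs k.natAbs)

lemma mx_r5 (i j k : ℤ) : mx T5 (r5 i j k) = mx5 i j k := by
  unfold mx T5 mx5
  rw [Finset.sup_insert, Finset.sup_insert, Finset.sup_singleton, val5_2, val5_3, val5_5]

lemma minors5 {i j k i' j' k' : ℤ} (h12 : |i * j' - j * i'| ≤ 1) (h13 : |i * k' - k * i'| ≤ 1)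
    (h23 : |j * k' - k * j'| ≤ 1) : Minors T5 (r5 i j k) (r5 i' j' k') 1 := by
  intro ℓ hℓ ℓ' hℓ'
  simp only [T5, Finset.mem_insert, Finset.mem_singleton] at hℓ hℓ'
  have g12 : |j * i' - i * j'| ≤ 1 := by rw [abs_sub_comm]; exact h12
  have g13 : |k * i' - i * k'| ≤ 1 := by rw [abs_sub_comm]; exact h13
  have g23 : |k * j' - j * k'| ≤ 1 := by rw [abs_sub_comm]; exact h23
  rcases hℓ with rfl | rfl | rfl <;> rcases hℓ' with rfl | rfl | rfl <;>
    simp only [val5_2, val5_3, val5_5, sub_self, abs_zero, Nat.cast_one] <;>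
    first | exact zero_le_one | assumption

/-- the sufficient conditions for freeness, for `a = 2 ^ i * 3 ^ j * 5 ^ k` and
`b = 2 ^ i' * 3 ^ j' * 5 ^ k'` -/
def Classical5 (i j k i' j' k' : ℤ) : Prop :=
  0 < i * i' ∨ 0 < j * j' ∨ 0 < k * k' ∨ r5 i j k + r5 i' j' k' ≤ 1 ∨
    1 / r5 i j k + 1 / r5 i' j' k' ≤ 1 ∨
    (0 < (r5 i j k - 1) * (r5 i' j' k' - 1) ∧ 0 ≤ i * i' ∧ 0 ≤ j * j' ∧ 0 ≤ k * k')

theorem always5 {i j k i' j' k' : ℤ} (h : Classical5 i j k i' j' k') :
    AlwaysFree (r5 i j k) (r5 i' j' k') := by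
  rcases h with h | h | h | h | h | ⟨h, h1, h2, h3⟩
  · exact always_of_common Nat.prime_two (r5_pos _ _ _) (r5_pos _ _ _)
      (by rw [val5_2, val5_2]; exact h)
  · exact always_of_common Nat.prime_three (r5_pos _ _ _) (r5_pos _ _ _)
      (by rw [val5_3, val5_3]; exact h)
  · exact always_of_common Nat.prime_five (r5_pos _ _ _) (r5_pos _ _ _)
      (by rw [val5_5, val5_5]; exact h)
  · exact always_outside (r5_pos _ _ _) (r5_pos _ _ _) (Or.inl h)
  · exact always_outside (r5_pos _ _ _) (r5_pos _ _ _) (Or.inr h)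
  · intro x₁ y₁ z₁ x₂ y₂ z₂ hx₁ hz₁ hx₂ hz₂ e₁ e₂ hnc
    have hz1 : (0 : ℚ) < z₁ := by exact_mod_cast hz₁
    have hz2 : (0 : ℚ) < z₂ := by exact_mod_cast hz₂
    refine free_of_places hx₁ hz₁ hx₂ hz₂ hnc ?_ ?_
    · rw [← e₁, ← e₂] at h
      have e : ((x₁ : ℚ) / z₁ - 1) * ((x₂ : ℚ) / z₂ - 1) * (z₁ * z₂) =
          ((x₁ : ℚ) - z₁) * ((x₂ : ℚ) - z₂) := by
        field_simp
      have h4 : (0 : ℚ) < ((x₁ : ℚ) - z₁) * ((x₂ : ℚ) - z₂) := by
        rw [← e]
        exact mul_pos h (mul_pos hz1 hz2)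
      exact_mod_cast h4
    · intro ℓ hp
      have : Fact ℓ.Prime := ⟨hp⟩
      have v1 : padicValRat ℓ (r5 i j k) = (padicValNat ℓ x₁ : ℤ) - padicValNat ℓ z₁ := by
        rw [← e₁, padicValRat.div (by exact_mod_cast hx₁.ne') (by exact_mod_cast hz₁.ne'),
          padicValRat.of_nat, padicValRat.of_nat]
      have v2 : padicValRat ℓ (r5 i' j' k') = (padicValNat ℓ x₂ : ℤ) - padicValNat ℓ z₂ := by
        rw [← e₂, padicValRat.div (by exact_mod_cast hx₂.ne') (by exact_mod_cast hz₂.ne'),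
          padicValRat.of_nat, padicValRat.of_nat]
      rw [← v1, ← v2]
      by_cases q2 : ℓ = 2
      · subst q2
        rw [val5_2, val5_2]
        exact h1
      by_cases q3 : ℓ = 3
      · subst q3
        rw [val5_3, val5_3]
        exact h2
      by_cases q5 : ℓ = 5
      · subst q5
        rw [val5_5, val5_5]
        exact h3
      rw [val_r5 hp, if_neg q2, if_neg q3, if_neg q5]
      simp

lemma small30 {x y : ℕ} (hx : 1 ≤ x) (hxy : x ≤ y)
    (h : (x + y) ^ (x + y) ≤ 30 * (x ^ x * y ^ y)) : x ≤ 2 ∧ y ≤ 10 := by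
  have hy : 1 ≤ y := hx.trans hxy
  have h1 := choose_le_of hx hy h
  have h2 := lt_choose hx hy
  have key : (List.range 30).all (fun x => (List.range 30).all (fun y =>
      decide (x = 0) || decide (y < x) || decide (30 * (x ^ x * y ^ y) < (x + y) ^ (x + y)) ||
        (decide (x ≤ 2) && decide (y ≤ 10)))) = true := by
    decide +kernel
  simp only [List.all_eq_true, List.mem_range] at key
  have h3 := key x (by omega) y (by omega)
  simp only [Bool.or_eq_true, Bool.and_eq_true, decide_eq_true_eq] at h3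
  rcases h3 with ((h3 | h3) | h3) | h3
  · omega
  · omega
  · omega
  · exact h3

lemma sgn_split {x y : ℤ} (h : x * y ≤ 0) : ∃ s : Bool, x = sgn s x.natAbs ∧
    y = sgn (!s) y.natAbs := by
  by_cases hx : 0 < x
  · have hy : y ≤ 0 := by
      by_contra hc
      push Not at hc
      have := mul_pos hx hc
      omega
    refine ⟨true, ?_, ?_⟩
    · simp only [sgn, if_true]
      omega
    · simp only [sgn, Bool.not_true, Bool.false_eq_true, if_false]
      omega
  · by_cases hy : 0 ≤ y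
    · refine ⟨false, ?_, ?_⟩
      · simp only [sgn, Bool.false_eq_true, if_false]
        omega
      · simp only [sgn, Bool.not_false, if_true]
        omega
    · have hx0 : x = 0 := by
        by_contra hc
        have h1 : x < 0 := by omega
        have h2 : y < 0 := by omega
        have := mul_pos_of_neg_of_neg h1 h2
        omega
      refine ⟨true, ?_, ?_⟩
      · simp only [sgn, if_true]
        omega
      · simp only [sgn, Bool.not_true, Bool.false_eq_true, if_false]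
        omega

lemma mOK_of (s t : Bool) (a b c d : ℕ)
    (h : |sgn s a * sgn (!t) d - sgn t c * sgn (!s) b| ≤ 1) : mOK a b c d = true := by
  unfold mOK
  rw [abs_le] at h
  obtain ⟨h1, h2⟩ := h
  simp only [Bool.and_eq_true, decide_eq_true_eq]
  cases s <;> cases t <;>
    simp only [sgn, Bool.not_true, Bool.not_false, Bool.false_eq_true, if_false, if_true] at h1 h2 <;>
    constructor <;> zify <;> linarith

lemma eq_zero_of_up5 {i j k : ℤ} (h : up5 i j k = up5 (-i) (-j) (-k)) : (i, j, k) = (0, 0, 0) := by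
  have h1 : r5 i j k = 1 := by
    rw [r5_eq, h]
    exact div_self (by exact_mod_cast (up5_pos _ _ _).ne')
  have v2 := val5_2 i j k
  have v3 := val5_3 i j k
  have v5 := val5_5 i j k
  rw [h1, padicValRat.one] at v2 v3 v5
  rw [← v2, ← v3, ← v5]

lemma up5_lt {i j k : ℤ} : up5 i j k < up5 (-i) (-j) (-k) ↔ r5 i j k < 1 := by
  rw [r5_eq, div_lt_one (by exact_mod_cast up5_pos _ _ _)]
  norm_cast

lemma up5_gt {i j k : ℤ} : up5 (-i) (-j) (-k) < up5 i j k ↔ 1 < r5 i j k := by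
  rw [r5_eq, one_lt_div (by exact_mod_cast up5_pos _ _ _)]
  norm_cast

lemma scope5_of {i j k i' j' k' : ℤ} (ha : (i, j, k) ≠ (0, 0, 0)) (hb : (i', j', k') ≠ (0, 0, 0))
    (hc : ¬ Classical5 i j k i' j' k') : scope5 i j k i' j' k' = true := by
  unfold Classical5 at hc
  push Not at hc
  obtain ⟨-, -, -, h3, h4, h5⟩ := hc
  have pA : (0 : ℚ) < up5 (-i) (-j) (-k) := by exact_mod_cast up5_pos _ _ _
  have pB : (0 : ℚ) < up5 (-i') (-j') (-k') := by exact_mod_cast up5_pos _ _ _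
  have pA' : (0 : ℚ) < up5 i j k := by exact_mod_cast up5_pos _ _ _
  have pB' : (0 : ℚ) < up5 i' j' k' := by exact_mod_cast up5_pos _ _ _
  unfold scope5
  simp only [Bool.and_eq_true, Bool.not_eq_true', decide_eq_true_eq]
  refine ⟨⟨⟨⟨fun h => ha (eq_zero_of_up5 h), fun h => hb (eq_zero_of_up5 h)⟩, ?_⟩, ?_⟩, ?_⟩
  · rw [r5_eq i j k, r5_eq i' j' k', div_add_div _ _ pA.ne' pB.ne', one_lt_div (mul_pos pA pB)] at h3
    have h6 : (up5 (-i) (-j) (-k) : ℚ) * up5 (-i') (-j') (-k') <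
        up5 i j k * up5 (-i') (-j') (-k') + up5 i' j' k' * up5 (-i) (-j) (-k) := by
      linarith
    exact_mod_cast h6
  · rw [r5_eq i j k, r5_eq i' j' k', one_div_div, one_div_div, div_add_div _ _ pA'.ne' pB'.ne',
      one_lt_div (mul_pos pA' pB')] at h4
    have h6 : (up5 i j k : ℚ) * up5 i' j' k' <
        up5 (-i) (-j) (-k) * up5 i' j' k' + up5 (-i') (-j') (-k') * up5 i j k := by
      linarith
    exact_mod_cast h6
  · by_contra hcon
    rw [Bool.not_eq_false] at hcon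
    simp only [Bool.and_eq_true, Bool.or_eq_true, decide_eq_true_eq, up5_lt, up5_gt] at hcon
    obtain ⟨⟨⟨c1, c2⟩, c3⟩, c4⟩ := hcon
    have h6 : 0 < (r5 i j k - 1) * (r5 i' j' k' - 1) := by
      rcases c4 with ⟨c4, c5⟩ | ⟨c4, c5⟩
      · exact mul_pos_of_neg_of_neg (by linarith) (by linarith)
      · exact mul_pos (by linarith) (by linarith)
    exact absurd c3 (not_le.2 (h5 h6 c1 c2))

lemma never5_half {i j k i' j' k' : ℤ} (h12 : |i * j' - j * i'| ≤ 1) (h13 : |i * k' - k * i'| ≤ 1)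
    (h23 : |j * k' - k * j'| ≤ 1) (p1 : i * i' ≤ 0) (p2 : j * j' ≤ 0) (p3 : k * k' ≤ 0)
    (hs : scope5 i j k i' j' k' = true) (hm : 1 ≤ mx5 i' j' k') (hmM : mx5 i' j' k' ≤ mx5 i j k)
    (hE : (mx5 i' j' k' + mx5 i j k) ^ (mx5 i' j' k' + mx5 i j k) ≤
      30 * (mx5 i' j' k' ^ mx5 i' j' k' * mx5 i j k ^ mx5 i j k)) :
    NeverFree (r5 i j k) (r5 i' j' k') := by
  obtain ⟨b1, b2⟩ := small30 hm hmM hE
  have hE' : eOK (mx5 i' j' k') (mx5 i j k) = true := decide_eq_true hE
  obtain ⟨s1, e1, e1'⟩ := sgn_split p1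
  obtain ⟨s2, e2, e2'⟩ := sgn_split p2
  obtain ⟨s3, e3, e3'⟩ := sgn_split p3
  have hbox := box5_check
  simp only [List.all_eq_true, List.mem_range] at hbox
  have c1 : i'.natAbs < 3 := by unfold mx5 at b1; omega
  have c2 : j'.natAbs < 3 := by unfold mx5 at b1; omega
  have c3 : k'.natAbs < 3 := by unfold mx5 at b1; omega
  have d1 : i.natAbs < 11 := by unfold mx5 at b2; omega
  have d2 : j.natAbs < 11 := by unfold mx5 at b2; omega
  have d3 : k.natAbs < 11 := by unfold mx5 at b2; omega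
  have h1 := hbox _ c1 _ c2 _ c3 _ d1 _ d2
  have m1 : mOK i.natAbs i'.natAbs j.natAbs j'.natAbs = true :=
    mOK_of s1 s2 _ _ _ _ (by rw [← e1, ← e2, ← e1', ← e2']; exact h12)
  have m2 : mOK i.natAbs i'.natAbs k.natAbs k'.natAbs = true :=
    mOK_of s1 s3 _ _ _ _ (by rw [← e1, ← e3, ← e1', ← e3']; exact h13)
  have m3 : mOK j.natAbs j'.natAbs k.natAbs k'.natAbs = true :=
    mOK_of s2 s3 _ _ _ _ (by rw [← e2, ← e3, ← e2', ← e3']; exact h23)
  rw [m1] at h1
  simp only [Bool.not_true, Bool.false_or, List.all_eq_true, List.mem_range] at h1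
  have h2 := h1 _ d3
  have hE2 : eOK (max i'.natAbs (max j'.natAbs k'.natAbs)) (max i.natAbs (max j.natAbs k.natAbs)) =
      true := hE'
  rw [m2, m3, hE2] at h2
  simp only [Bool.and_self, Bool.not_true, Bool.false_or] at h2
  unfold one5 at h2
  simp only [List.all_eq_true] at h2
  have hmem : ∀ s : Bool, s ∈ [true, false] := by decide
  have h3 := h2 s1 (hmem s1) s2 (hmem s2) s3 (hmem s3)
  rw [← e1, ← e2, ← e3, ← e1', ← e2', ← e3', hs] at h3
  simp only [Bool.not_true, Bool.false_or] at h3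
  exact chk5_sound h3

theorem never5 {i j k i' j' k' : ℤ} (h12 : |i * j' - j * i'| ≤ 1) (h13 : |i * k' - k * i'| ≤ 1)
    (h23 : |j * k' - k * j'| ≤ 1) (ha : (i, j, k) ≠ (0, 0, 0)) (hb : (i', j', k') ≠ (0, 0, 0))
    (hc : ¬ Classical5 i j k i' j' k') : NeverFree (r5 i j k) (r5 i' j' k') := by
  have hs := scope5_of ha hb hc
  have hc' := hc
  unfold Classical5 at hc'
  push Not at hc'
  obtain ⟨p1, p2, p3, q3, q4, q5⟩ := hc'
  by_cases hcrit : (∏ ℓ ∈ T5, ℓ) ^ 1 * (mx T5 (r5 i' j' k') ^ mx T5 (r5 i' j' k') *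
      mx T5 (r5 i j k) ^ mx T5 (r5 i j k)) < (mx T5 (r5 i' j' k') + mx T5 (r5 i j k)) ^
        (mx T5 (r5 i' j' k') + mx T5 (r5 i j k))
  · refine never_of_minors T5_prime (r5_pos _ _ _) (r5_pos _ _ _) (tunit5 _ _ _) (tunit5 _ _ _)
      (minors5 h12 h13 h23) hcrit ?_
    intro ℓ hℓ
    simp only [T5, Finset.mem_insert, Finset.mem_singleton] at hℓ
    rcases hℓ with rfl | rfl | rfl
    · rw [val5_2, val5_2]; exact p1
    · rw [val5_3, val5_3]; exact p2
    · rw [val5_5, val5_5]; exact p3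
  · rw [T5_prod, pow_one, mx_r5, mx_r5] at hcrit
    push Not at hcrit
    have ma : 1 ≤ mx5 i j k := by
      unfold mx5
      by_contra h
      apply ha
      have e1 : i = 0 := by omega
      have e2 : j = 0 := by omega
      have e3 : k = 0 := by omega
      rw [e1, e2, e3]
    have mb : 1 ≤ mx5 i' j' k' := by
      unfold mx5
      by_contra h
      apply hb
      have e1 : i' = 0 := by omega
      have e2 : j' = 0 := by omega
      have e3 : k' = 0 := by omega
      rw [e1, e2, e3]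
    rcases le_total (mx5 i' j' k') (mx5 i j k) with hle | hle
    · exact never5_half h12 h13 h23 p1 p2 p3 hs mb hle hcrit
    · have hc2 : ¬ Classical5 i' j' k' i j k := by
        unfold Classical5
        push Not
        refine ⟨by rw [mul_comm]; exact p1, by rw [mul_comm]; exact p2, by rw [mul_comm]; exact p3,
          by rw [add_comm]; exact q3, by rw [add_comm]; exact q4, fun h1 h2 h3 => ?_⟩
        rw [mul_comm] at h1 h2 h3
        rw [mul_comm]
        exact q5 h1 h2 h3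
      refine never_swap (never5_half (i := i') (j := j') (k := k') (i' := i) (j' := j) (k' := k)
        ?_ ?_ ?_ (by rw [mul_comm]; exact p1) (by rw [mul_comm]; exact p2)
        (by rw [mul_comm]; exact p3) (scope5_of hb ha hc2) ma hle ?_)
      · rw [abs_sub_comm, mul_comm j' i, mul_comm i' j]; exact h12
      · rw [abs_sub_comm, mul_comm k' i, mul_comm i' k]; exact h13
      · rw [abs_sub_comm, mul_comm k' j, mul_comm j' k]; exact h23
      · rw [add_comm, mul_comm (mx5 i j k ^ mx5 i j k)]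
        exact hcrit

end Pool.Agent.H82.ND
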