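import Pool.Agent.H82.ND.Alg

/-!
# Matrices with a zero on the diagonal, and the algorithm on all inputs
-/

set_option autoImplicit false

namespace Pool.Agent.H82.ND

open Finset Pool.Agent.H49.FD Pool.Agent.H54.Free

lemma not_free_of_zero {x₁ y₁ z₁ x₂ y₂ z₂ : ℕ} (h : x₁ = 0 ∨ z₁ = 0 ∨ x₂ = 0 ∨ z₂ = 0) :
    ¬ FreePair x₁ y₁ z₁ x₂ y₂ z₂ := by
  intro hf
  rcases h with rfl | rfl | rfl | rfl
  · have := hf [false, false, true] [false, true, false] (by simp) (by simp) (by
      simp [mul_comm, mul_left_comm])
    simp at this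
  · have := hf [true, false, false] [false, true, false] (by simp) (by simp) (by
      simp [mul_comm, mul_left_comm])
    simp at this
  · have := hf [true, true, false] [true, false, true] (by simp) (by simp) (by
      simp [mul_comm, mul_left_comm])
    simp at this
  · have := hf [false, true, true] [true, false, true] (by simp) (by simp) (by
      simp [mul_comm, mul_left_comm])
    simp at this

/-- some diagonal entry is zero -/
def ZeroT (p : Inp) : Prop := p.1.1 = 0 ∨ p.1.2.2 = 0 ∨ p.2.1 = 0 ∨ p.2.2.2 = 0

lemma zeroT_iff {p : Inp} : ZeroT p ↔ ¬ PosInp p := by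
  unfold ZeroT PosInp
  omega

lemma prim_ZeroT : PrimrecPred ZeroT := by
  have z : ∀ {f : Inp → ℕ}, Primrec f → PrimrecPred fun x => f x = 0 :=
    fun hf => Primrec.eq.comp hf (Primrec.const 0)
  exact (z p11).or ((z p13).or ((z p21).or (z p23)))

lemma not_free_of_ZeroT {p : Inp} (h : ZeroT p) : ¬ FreeInp p := not_free_of_zero h

open Classical in
/-- the algorithm on all inputs -/
noncomputable def algA (p : Inp) : Option Bool := if ZeroT p then some false else alg p

lemma prim_algA : Primrec algA := by
  classical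
  exact Primrec.ite prim_ZeroT (Primrec.const _) prim_alg

theorem algA_sound (p : Inp) :
    (algA p = some true → FreeInp p) ∧ (algA p = some false → ¬ FreeInp p) := by
  unfold algA
  by_cases h : ZeroT p
  · rw [if_pos h]
    exact ⟨fun h1 => by simp at h1, fun _ => not_free_of_ZeroT h⟩
  · rw [if_neg h]
    exact alg_sound (not_not.1 fun h1 => h (zeroT_iff.2 h1))

theorem algA_finite (G : Set ℚ) :
    {x : ℚ × ℚ | ∃ p : Inp, gen (rat1 p) (rat2 p) = G ∧ algA p = none ∧
      x = (rat1 p, rat2 p)}.Finite := by
  refine (alg_finite G).subset ?_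
  rintro x ⟨p, hp, hn, hx⟩
  unfold algA at hn
  by_cases h : ZeroT p
  · rw [if_pos h] at hn
    simp at hn
  · rw [if_neg h] at hn
    exact ⟨p, not_not.1 fun h1 => h (zeroT_iff.2 h1), hp, hn, hx⟩

/-- **For every group there is an algorithm for all inputs whose ratios generate the group** -/
theorem decidable_groupA (G : Set ℚ) : ∃ f : Inp → Bool, Computable f ∧
    ∀ p : Inp, (PosInp p → gen (rat1 p) (rat2 p) = G) → (f p = true ↔ FreeInp p) := by
  classical
  obtain ⟨f, hf, h⟩ := decidable_group G
  have hz : ComputablePred ZeroT := ComputablePred.computable_iff.2 (by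
    obtain ⟨hd, h1⟩ := prim_ZeroT
    exact ⟨fun p => decide (ZeroT p), (h1.to_comp.of_eq fun p => by congr), by
      funext p
      simp⟩)
  obtain ⟨g, hg, hg2⟩ := ComputablePred.computable_iff.1 hz
  refine ⟨fun p => cond (g p) false (f p), Computable.cond hg (Computable.const false) hf,
    fun p hp => ?_⟩
  have h1 : ZeroT p = (g p = true) := congrFun hg2 p
  show cond (g p) false (f p) = true ↔ FreeInp p
  by_cases hc : g p = true
  · rw [hc]
    have h2 : ZeroT p := h1 ▸ hc
    simp only [cond_true, Bool.false_eq_true, false_iff]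
    exact not_free_of_ZeroT h2
  · rw [Bool.not_eq_true] at hc
    have h2 : ¬ ZeroT p := by
      rw [h1, hc]
      simp
    have h3 : PosInp p := not_not.1 fun h1 => h2 (zeroT_iff.2 h1)
    rw [hc]
    exact h p h3 (hp h3)

end Pool.Agent.H82.ND
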